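import Pool.Agent.Lib_MP_75b583_co.Warp

/-!
# Counting weakly reachable vertices of a warped product
-/

open SimpleGraph

namespace Pool.Agent.Lib_MP_75b583_co

variable {V : Type}

lemma eq_of_close {m q q' : ℕ} (h1 : 2 ^ m ∣ q) (h2 : 2 ^ m ∣ q') (h : |(q : ℤ) - q'| < 2 ^ m) :
    q = q' := by
  have h1' : (2 : ℤ) ^ m ∣ q := by exact_mod_cast h1
  have h2' : (2 : ℤ) ^ m ∣ q' := by exact_mod_cast h2
  have := Int.eq_zero_of_abs_lt_dvd (h1'.sub h2') h
  have : (q : ℤ) = q' := by linarith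
  exact_mod_cast this

lemma abs_sub_lt_of_side {p q q' : ℕ} {X : ℤ} (hs : q < p ↔ q' < p) (h1 : |(p : ℤ) - q| < X)
    (h2 : |(p : ℤ) - q'| < X) : |(q : ℤ) - q'| < X := by
  rw [abs_lt] at *
  by_cases h : q < p
  · have h' := hs.1 h
    constructor <;> omega
  · have h' : ¬ q' < p := fun h'' => h (hs.2 h'')
    constructor <;> omega

lemma abs_sub_le_of_side {p q q' : ℕ} {X : ℤ} (hs : q < p ↔ q' < p) (h1 : |(p : ℤ) - q| ≤ X)
    (h2 : |(p : ℤ) - q'| ≤ X) : |(q : ℤ) - q'| ≤ X := by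
  rw [abs_le] at *
  by_cases h : q < p
  · have h' := hs.1 h
    constructor <;> omega
  · have h' : ¬ q' < p := fun h'' => h (hs.2 h'')
    constructor <;> omega

namespace Par

variable {rk e : V → ℕ} {s A L K : ℕ}

instance [Finite V] (e : V → ℕ) (L : ℕ) : Finite (WV e L) := by
  have : Function.Injective (fun x : WV e L => ((x.1.1, ⟨x.1.2, Nat.lt_succ_of_le x.2.2⟩) :
      V × Fin (L + 1))) := by
    intro x y hxy
    simp only [Prod.mk.injEq, Fin.mk.injEq] at hxy
    exact Subtype.ext (Prod.ext hxy.1 hxy.2)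
  exact Finite.of_injective _ this

lemma ncard_far [Fintype V] (h : Par rk e s A L K) (G : SimpleGraph V) (d : ℕ) (x : WV e L) :
    {t | WR (wg G e L) (rk' rk e A L K) d x t}.ncard ≤ Fintype.card V * (2 * (A + 1)) := by
  let T : Set (V × (Bool × ℕ)) := (Set.univ : Set V) ×ˢ
    ((Set.univ : Set Bool) ×ˢ (↑(Finset.range (A + 1)) : Set ℕ))
  have hT : T.Finite := Set.finite_univ.prod (Set.finite_univ.prod (Finset.finite_toSet _))
  have hTc : T.ncard = Fintype.card V * (2 * (A + 1)) := by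
    rw [Set.ncard_prod, Set.ncard_prod, Set.ncard_coe_finset, Set.ncard_univ, Set.ncard_univ,
      Finset.card_range, Nat.card_eq_fintype_card, Nat.card_eq_fintype_card, Fintype.card_bool]
  rw [← hTc]
  refine Set.ncard_le_ncard_of_injOn (fun t => (t.1.1, decide (t.1.2 < x.1.2), nu A t.1.2))
    ?_ ?_ hT
  · intro t _
    refine ⟨Set.mem_univ _, Set.mem_univ _, ?_⟩
    simp only [Finset.coe_range, Set.mem_Iio]
    exact Nat.lt_succ_of_le (nu_le t.2.2 h.LA)
  · intro t ht t' ht' htt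
    simp only [Prod.mk.injEq, decide_eq_decide] at htt
    obtain ⟨h1, h2, h3⟩ := htt
    have d1 := h.WR_far ht
    have d2 := h.WR_far ht'
    rw [← h3] at d2
    have d3 := abs_sub_lt_of_side h2 d1 d2
    refine Subtype.ext (Prod.ext h1 (eq_of_close (dvd_of_le_nu le_rfl) ?_ d3))
    rw [h3]; exact dvd_of_le_nu le_rfl

lemma ncard_near [Fintype V] (h : Par rk e s A L K) (G : SimpleGraph V) {d : ℕ}
    (hd : d ≤ 2 ^ (s - 1)) (x : WV e L) :
    {t | WR (wg G e L) (rk' rk e A L K) d x t}.ncard ≤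
      {w | WR G rk d x.1.1 w}.ncard * (2 * (Nat.log 2 d + 2)) := by
  let T : Set (V × (Bool × ℕ)) := {w | WR G rk d x.1.1 w} ×ˢ
    ((Set.univ : Set Bool) ×ˢ (↑(Finset.range (Nat.log 2 d + 2)) : Set ℕ))
  have hT : T.Finite := (Set.toFinite _).prod (Set.finite_univ.prod (Finset.finite_toSet _))
  have hTc : T.ncard = {w | WR G rk d x.1.1 w}.ncard * (2 * (Nat.log 2 d + 2)) := by
    rw [Set.ncard_prod, Set.ncard_prod, Set.ncard_coe_finset, Set.ncard_univ,
      Finset.card_range, Nat.card_eq_fintype_card, Fintype.card_bool]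
  rw [← hTc]
  refine Set.ncard_le_ncard_of_injOn (fun t => (t.1.1, decide (t.1.2 < x.1.2),
    min (nu A t.1.2) (e t.1.1 + Nat.log 2 d + 1) - e t.1.1)) ?_ ?_ hT
  · intro t ht
    refine ⟨(h.WR_near hd ht).1, Set.mem_univ _, ?_⟩
    simp only [Finset.coe_range, Set.mem_Iio]
    omega
  · intro t ht t' ht' htt
    simp only [Prod.mk.injEq, decide_eq_decide] at htt
    obtain ⟨h1, h2, h3⟩ := htt
    rw [← h1] at h3
    have e1 : e t.1.1 ≤ nu A t.1.2 := le_nu_of_dvd (h.eA _) t.2.1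
    have e2 : e t.1.1 ≤ nu A t'.1.2 := by
      rw [h1]; exact le_nu_of_dvd (h.eA _) t'.2.1
    have h4 : min (nu A t.1.2) (e t.1.1 + Nat.log 2 d + 1) =
        min (nu A t'.1.2) (e t.1.1 + Nat.log 2 d + 1) := by omega
    by_cases h5 : nu A t.1.2 < e t.1.1 + Nat.log 2 d + 1
    · have h6 : nu A t.1.2 = nu A t'.1.2 := by omega
      have d1 := h.WR_far ht
      have d2 := h.WR_far ht'
      rw [← h6] at d2
      have d3 := abs_sub_lt_of_side h2 d1 d2
      refine Subtype.ext (Prod.ext h1 (eq_of_close (dvd_of_le_nu le_rfl) ?_ d3))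
      rw [h6]; exact dvd_of_le_nu le_rfl
    · have h6 : e t.1.1 + Nat.log 2 d + 1 ≤ nu A t.1.2 := by omega
      have h7 : e t.1.1 + Nat.log 2 d + 1 ≤ nu A t'.1.2 := by omega
      have d1 := (h.WR_near hd ht).2
      have d2 := (h.WR_near hd ht').2
      rw [← h1] at d2
      have d3 := abs_sub_le_of_side h2 d1 d2
      have hlog : (d : ℤ) < 2 ^ (Nat.log 2 d + 1) := by
        have := Nat.lt_pow_succ_log_self (b := 2) (by norm_num) d
        exact_mod_cast this
      have h8 : |(t.1.2 : ℤ) - t'.1.2| < 2 ^ (e t.1.1 + Nat.log 2 d + 1) := by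
        refine d3.trans_lt ?_
        rw [show e t.1.1 + Nat.log 2 d + 1 = (Nat.log 2 d + 1) + e t.1.1 by ring, pow_add]
        have : (0 : ℤ) < 2 ^ e t.1.1 := by positivity
        nlinarith
      exact Subtype.ext (Prod.ext h1 (eq_of_close (dvd_of_le_nu h6) (dvd_of_le_nu h7) h8))

/-- The bound for weak reachability in the warped product. -/
theorem ncard_WR [Fintype V] (h : Par rk e s A L K) (G : SimpleGraph V)
    (hs : Fintype.card V * (2 * (A + 1)) ≤ 2 ^ (s - 1)) (n : ℕ)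
    (hG : ∀ d v, {w | WR G rk d v w}.ncard ≤ (d + 1) * (2 * Nat.log 2 (d + 1) + 5) ^ n)
    (d : ℕ) (x : WV e L) :
    {t | WR (wg G e L) (rk' rk e A L K) d x t}.ncard ≤
      (d + 1) * (2 * Nat.log 2 (d + 1) + 5) ^ (n + 1) := by
  by_cases hd : d ≤ 2 ^ (s - 1)
  · refine (h.ncard_near G hd x).trans ?_
    have hlog := Nat.log_mono_right (b := 2) (Nat.le_succ d)
    rw [Nat.succ_eq_add_one] at hlog
    calc {w | WR G rk d x.1.1 w}.ncard * (2 * (Nat.log 2 d + 2))
        ≤ ((d + 1) * (2 * Nat.log 2 (d + 1) + 5) ^ n) * (2 * Nat.log 2 (d + 1) + 5) :=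
          Nat.mul_le_mul (hG d _) (by omega)
      _ = (d + 1) * (2 * Nat.log 2 (d + 1) + 5) ^ (n + 1) := by ring
  · refine (h.ncard_far G d x).trans (hs.trans ?_)
    push Not at hd
    calc 2 ^ (s - 1) ≤ (d + 1) * 1 := by omega
      _ ≤ (d + 1) * (2 * Nat.log 2 (d + 1) + 5) ^ (n + 1) :=
        Nat.mul_le_mul_left _ (Nat.one_le_pow _ _ (by omega))

end Par

end Pool.Agent.Lib_MP_75b583_co
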