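import Mathlib

/-!
# Weak reachability
-/

namespace Pool.Agent.Lib_MP_75b583_co

/-- `w` is weakly `d`-reachable from `v`: there is a walk of length at most `d` between them all of
whose vertices have rank at least the rank of `w`. -/
def WR {V : Type*} (G : SimpleGraph V) (rk : V → ℕ) (d : ℕ) (v w : V) : Prop :=
  ∃ p : G.Walk w v, p.length ≤ d ∧ ∀ x ∈ p.support, rk w ≤ rk x

end Pool.Agent.Lib_MP_75b583_co
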