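import Pool.Agent.Lib_MP_75b583_co.Defs

/-!
# Shallow minors versus weak reachability
-/

open SimpleGraph

namespace Pool.Agent.Lib_MP_75b583_co

theorem exists_least {n : ℕ} (rk : Fin n → ℕ) (S : Set (Fin n)) (hS : S.Nonempty) :
    ∃ a ∈ S, ∀ x ∈ S, rk a ≤ rk x := by
  obtain ⟨a, ha, hmin⟩ := Set.exists_min_image S rk (Set.toFinite S) hS
  exact ⟨a, ha, hmin⟩

theorem wr_of_adj {n : ℕ} (G : SimpleGraph (Fin n)) (rk : Fin n → ℕ) (r : ℕ)
    (Bi Bj : Set (Fin n)) (ci cj μi μj x y : Fin n)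
    (hradi : ∀ v ∈ Bi, ∃ w : G.Walk ci v, w.length ≤ r ∧ ∀ x ∈ w.support, x ∈ Bi)
    (hradj : ∀ v ∈ Bj, ∃ w : G.Walk cj v, w.length ≤ r ∧ ∀ x ∈ w.support, x ∈ Bj)
    (hμi : μi ∈ Bi) (hμj : μj ∈ Bj) (hmi : ∀ z ∈ Bi, rk μi ≤ rk z) (hmj : ∀ z ∈ Bj, rk μj ≤ rk z)
    (hx : x ∈ Bi) (hy : y ∈ Bj) (hxy : G.Adj x y) (hlt : rk μi ≤ rk μj) :
    WR G rk (4 * r + 1) μj μi := by
  obtain ⟨w1, l1, s1⟩ := hradi μi hμi
  obtain ⟨w2, l2, s2⟩ := hradi x hx
  obtain ⟨w3, l3, s3⟩ := hradj y hy
  obtain ⟨w4, l4, s4⟩ := hradj μj hμj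
  refine ⟨w1.reverse.append (w2.append (Walk.cons hxy (w3.reverse.append w4))), ?_, ?_⟩
  · simp only [Walk.length_append, Walk.length_reverse, Walk.length_cons]
    omega
  · intro z hz
    have : z ∈ Bi ∨ z ∈ Bj := by
      rw [Walk.mem_support_append_iff, Walk.support_reverse, List.mem_reverse,
        Walk.mem_support_append_iff, Walk.support_cons, List.mem_cons,
        Walk.mem_support_append_iff, Walk.support_reverse, List.mem_reverse] at hz
      rcases hz with h | h | h | h | h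
      · exact Or.inl (s1 _ h)
      · exact Or.inl (s2 _ h)
      · exact Or.inl (h ▸ hx)
      · exact Or.inr (s3 _ h)
      · exact Or.inr (s4 _ h)
    rcases this with h | h
    · exact hmi z h
    · exact hlt.trans (hmj z h)

/-- PART M (file Minor.lean) -/
theorem minor_density {n : ℕ} (G : SimpleGraph (Fin n)) (rk : Fin n → ℕ)
    (hrk : Function.Injective rk) (K r : ℕ)
    (hK : ∀ v, {w | WR G rk (4 * r + 1) v w}.ncard ≤ K)
    (m : ℕ) (H : SimpleGraph (Fin m)) (B : Fin m → Set (Fin n)) (ctr : Fin m → Fin n)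
    (hdisj : ∀ i j, i ≠ j → Disjoint (B i) (B j)) (hctr : ∀ i, ctr i ∈ B i)
    (hrad : ∀ i, ∀ v ∈ B i, ∃ w : G.Walk (ctr i) v, w.length ≤ r ∧ ∀ x ∈ w.support, x ∈ B i)
    (hadj : ∀ i j, H.Adj i j → ∃ x ∈ B i, ∃ y ∈ B j, G.Adj x y) :
    2 * Nat.card H.edgeSet ≤ 2 * K * m := by
  classical
  have h1 : ∀ i, ∃ a ∈ B i, ∀ x ∈ B i, rk a ≤ rk x := fun i =>
    exists_least rk (B i) ⟨ctr i, hctr i⟩
  choose μ hμ hmin using h1
  have hinj : Function.Injective μ := by
    intro i j hij
    by_contra hne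
    exact Set.disjoint_left.mp (hdisj i j hne) (hμ i) (hij ▸ hμ j)
  have hWR : ∀ i j, H.Adj i j → rk (μ i) ≤ rk (μ j) → WR G rk (4 * r + 1) (μ j) (μ i) := by
    intro i j hij hle
    obtain ⟨x, hx, y, hy, hxy⟩ := hadj i j hij
    exact wr_of_adj G rk r (B i) (B j) (ctr i) (ctr j) (μ i) (μ j) x y (hrad i) (hrad j)
      (hμ i) (hμ j) (hmin i) (hmin j) hx hy hxy hle
  -- the finset of ordered pairs
  let T : Fin m → Finset (Fin m) := fun j =>
    Finset.univ.filter fun i => H.Adj j i ∧ rk (μ i) ≤ rk (μ j)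
  have hT : ∀ j, (T j).card ≤ K := by
    intro j
    have h2 : ((T j).image μ : Set (Fin n)) ⊆ {w | WR G rk (4 * r + 1) (μ j) w} := by
      intro z hz
      simp only [Finset.coe_image, Set.mem_image, Finset.mem_coe, T, Finset.mem_filter,
        Finset.mem_univ, true_and] at hz
      obtain ⟨i, ⟨ha, hle⟩, rfl⟩ := hz
      exact hWR i j ha.symm hle
    have h3 := Set.ncard_le_ncard h2 (Set.toFinite _)
    rw [Set.ncard_coe_finset, Finset.card_image_of_injective _ hinj] at h3
    exact h3.trans (hK (μ j))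
  let S : Finset (Fin m × Fin m) := Finset.univ.filter fun p => p.2 ∈ T p.1
  have hS : S.card ≤ K * m := by
    have h4 : S.card = ∑ j : Fin m, (T j).card := by
      rw [Finset.card_eq_sum_card_fiberwise (f := Prod.fst) (t := Finset.univ)
        (fun _ _ => Finset.mem_coe.mpr (Finset.mem_univ _))]
      refine Finset.sum_congr rfl fun j _ => ?_
      refine Finset.card_bij (fun p _ => p.2) ?_ ?_ ?_
      · rintro ⟨a, b⟩ h
        simp only [S, Finset.mem_filter, Finset.mem_univ, true_and] at h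
        exact h.2 ▸ h.1
      · rintro ⟨a, b⟩ h ⟨c, d⟩ h' e
        simp only [Finset.mem_filter] at h h'
        simp only at e
        rw [Prod.mk.injEq]
        exact ⟨h.2.trans h'.2.symm, e⟩
      · intro i hi
        refine ⟨(j, i), ?_, rfl⟩
        simp only [S, Finset.mem_filter, Finset.mem_univ, true_and, and_true]
        exact hi
    rw [h4]
    calc ∑ j : Fin m, (T j).card ≤ ∑ _j : Fin m, K := Finset.sum_le_sum fun j _ => hT j
      _ = K * m := by simp [mul_comm]
  have hE : Nat.card H.edgeSet ≤ S.card := by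
    have h5 : H.edgeSet ⊆ ((S.image fun p => s(p.1, p.2) : Finset (Sym2 (Fin m))) :
        Set (Sym2 (Fin m))) := by
      intro e he
      induction e using Sym2.ind with
      | _ a b =>
        rw [SimpleGraph.mem_edgeSet] at he
        simp only [Finset.coe_image, Set.mem_image, Finset.mem_coe]
        rcases le_total (rk (μ a)) (rk (μ b)) with h | h
        · refine ⟨(b, a), ?_, Sym2.eq_swap⟩
          simp only [S, T, Finset.mem_filter, Finset.mem_univ, true_and]
          exact ⟨he.symm, h⟩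
        · refine ⟨(a, b), ?_, rfl⟩
          simp only [S, T, Finset.mem_filter, Finset.mem_univ, true_and]
          exact ⟨he, h⟩
    have h6 := Set.ncard_le_ncard h5 (Set.toFinite _)
    rw [Set.ncard_coe_finset] at h6
    calc Nat.card H.edgeSet = H.edgeSet.ncard := rfl
      _ ≤ _ := h6
      _ ≤ S.card := Finset.card_image_le
  calc 2 * Nat.card H.edgeSet ≤ 2 * (K * m) := by
        have := hE.trans hS
        omega
    _ = 2 * K * m := by ring

end Pool.Agent.Lib_MP_75b583_co
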