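import Pool.Agent.Lib_MP_75b583_co.Defs

/-!
# Edge subdivision and weak reachability
-/

open SimpleGraph

namespace Pool.Agent.Lib_MP_75b583_co

namespace Subdiv

/-- The vertices of the subdivided graph. -/
abbrev V' (V : Type) (l : ℕ) : Type := V ⊕ (V × V × Fin l)

/-- The directed edges of the subdivided graph. -/
def R {V : Type} (G : SimpleGraph V) (l : ℕ) : V' V l → V' V l → Prop
  | Sum.inl _, Sum.inl _ => False
  | Sum.inl x, Sum.inr (a, _, i) => x = a ∧ (i : ℕ) = 0
  | Sum.inr (a, b, i), Sum.inr (a', b', j) => a = a' ∧ b = b' ∧ (i : ℕ) + 1 = j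
  | Sum.inr (a, b, i), Sum.inl y => y = b ∧ (i : ℕ) + 1 = l ∧ G.Adj a b

/-- The subdivided graph. -/
def G' {V : Type} (G : SimpleGraph V) (l : ℕ) : SimpleGraph (V' V l) :=
  SimpleGraph.fromRel (R G l)

/-- The invariant of the walks starting at an old vertex. -/
def Inv {V : Type} (G : SimpleGraph V) (l : ℕ) (x : V) (S : V' V l → Prop) (t : ℕ) :
    V' V l → Prop
  | Sum.inl y => ∃ p : G.Walk x y, p.length * (l + 1) ≤ t ∧ ∀ u ∈ p.support, S (Sum.inl u)
  | Sum.inr (a, b, i) =>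
      (∃ p : G.Walk x a, p.length * (l + 1) + (i + 1) ≤ t ∧ ∀ u ∈ p.support, S (Sum.inl u)) ∨
      (G.Adj a b ∧ ∃ p : G.Walk x b, p.length * (l + 1) + (l - i) ≤ t ∧
        ∀ u ∈ p.support, S (Sum.inl u))

theorem Inv.step {V : Type} {G : SimpleGraph V} {l : ℕ} {x : V} {S : V' V l → Prop} {t : ℕ}
    {z z' : V' V l} (h : Inv G l x S t z) (hadj : (G' G l).Adj z z') (hS : S z') :
    Inv G l x S (t + 1) z' := by
  rw [G', SimpleGraph.fromRel_adj] at hadj
  obtain ⟨_, hR⟩ := hadj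
  match z, z', h, hR, hS with
  | Sum.inl y, Sum.inl y', h, hR, hS => simp [R] at hR
  | Sum.inl y, Sum.inr (a, b, i), h, hR, hS =>
    obtain ⟨p, hp, hpS⟩ := h
    simp only [R] at hR
    rcases hR with ⟨rfl, hi⟩ | ⟨rfl, hi, hab⟩
    · left
      exact ⟨p, by omega, hpS⟩
    · right
      exact ⟨hab, p, by omega, hpS⟩
  | Sum.inr (a, b, i), Sum.inr (a', b', j), h, hR, hS =>
    simp only [R] at hR
    have hi := i.isLt
    have hj := j.isLt
    have : a = a' ∧ b = b' ∧ ((i : ℕ) + 1 = j ∨ (j : ℕ) + 1 = i) := by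
      rcases hR with ⟨h1, h2, h3⟩ | ⟨h1, h2, h3⟩
      · exact ⟨h1, h2, Or.inl h3⟩
      · exact ⟨h1.symm, h2.symm, Or.inr h3⟩
    obtain ⟨rfl, rfl, hij⟩ := this
    rcases h with ⟨p, hp, hpS⟩ | ⟨hab, p, hp, hpS⟩
    · left
      exact ⟨p, by omega, hpS⟩
    · right
      exact ⟨hab, p, by omega, hpS⟩
  | Sum.inr (a, b, i), Sum.inl y, h, hR, hS =>
    simp only [R] at hR
    have hi := i.isLt
    rcases hR with ⟨rfl, hi', hab⟩ | ⟨rfl, hi'⟩
    · rcases h with ⟨p, hp, hpS⟩ | ⟨_, p, hp, hpS⟩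
      · refine ⟨p.concat hab, ?_, ?_⟩
        · rw [SimpleGraph.Walk.length_concat, Nat.add_mul]
          omega
        · intro u hu
          rw [SimpleGraph.Walk.support_concat] at hu
          simp only [List.concat_eq_append, List.mem_append, List.mem_singleton] at hu
          rcases hu with hu | rfl
          · exact hpS u hu
          · exact hS
      · exact ⟨p, by omega, hpS⟩
    · rcases h with ⟨p, hp, hpS⟩ | ⟨hab, p, hp, hpS⟩
      · exact ⟨p, by omega, hpS⟩
      · refine ⟨p.concat hab.symm, ?_, ?_⟩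
        · rw [SimpleGraph.Walk.length_concat, Nat.add_mul]
          omega
        · intro u hu
          rw [SimpleGraph.Walk.support_concat] at hu
          simp only [List.concat_eq_append, List.mem_append, List.mem_singleton] at hu
          rcases hu with hu | rfl
          · exact hpS u hu
          · exact hS

theorem Inv.walk {V : Type} {G : SimpleGraph V} {l : ℕ} {x : V} {S : V' V l → Prop}
    {z z' : V' V l} (q : (G' G l).Walk z z') :
    ∀ {t : ℕ}, Inv G l x S t z → (∀ u ∈ q.support, S u) → Inv G l x S (t + q.length) z' := by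
  induction q with
  | nil => intro t h _; simpa using h
  | @cons u v w hadj p ih =>
    intro t h hS
    have h1 : Inv G l x S (t + 1) v := h.step hadj (hS v (by simp))
    have h2 := ih h1 (fun u hu => hS u (by simp [hu]))
    rw [SimpleGraph.Walk.length_cons]
    have : t + 1 + p.length = t + (p.length + 1) := by ring
    rwa [this] at h2

theorem Inv.start {V : Type} {G : SimpleGraph V} {l : ℕ} {x : V} {S : V' V l → Prop}
    (hx : S (Sum.inl x)) : Inv G l x S 0 (Sum.inl x) :=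
  ⟨SimpleGraph.Walk.nil, by simp, by simpa using hx⟩

/-- The code of a new vertex. -/
noncomputable def code {V : Type} [Fintype V] (l : ℕ) (z : V × V × Fin l) : ℕ :=
  (Fintype.equivFin (V × V) (z.1, z.2.1) : ℕ) * l + z.2.2

theorem code_inj {V : Type} [Fintype V] (l : ℕ) : Function.Injective (code (V := V) l) := by
  rintro ⟨a, b, i⟩ ⟨a', b', j⟩ h
  simp only [code] at h
  have hl : 0 < l := lt_of_le_of_lt (Nat.zero_le _) i.isLt
  have h1 : (i : ℕ) = j := by
    have := congrArg (· % l) h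
    simp only [Nat.mul_add_mod_self_right] at this
    rwa [Nat.mod_eq_of_lt i.isLt, Nat.mod_eq_of_lt j.isLt] at this
  rw [h1] at h
  have h2 : (Fintype.equivFin (V × V) (a, b) : ℕ) = Fintype.equivFin (V × V) (a', b') := by
    have := Nat.add_right_cancel h
    exact Nat.eq_of_mul_eq_mul_right hl this
  have h3 := (Fintype.equivFin (V × V)).injective (Fin.ext h2)
  rw [Prod.mk.injEq] at h3
  obtain ⟨rfl, rfl⟩ := h3
  have : i = j := Fin.ext h1
  rw [this]

/-- The new rank. -/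
noncomputable def rk' {V : Type} [Fintype V] (rk : V → ℕ) (l M : ℕ) : V' V l → ℕ
  | Sum.inl x => rk x
  | Sum.inr z => M + code l z

theorem rk'_inj {V : Type} [Fintype V] {rk : V → ℕ} (hrk : Function.Injective rk) {l M : ℕ}
    (hM : ∀ x, rk x < M) : Function.Injective (rk' rk l M) := by
  rintro (x | z) (y | z') h
  · simp only [rk'] at h
    rw [hrk h]
  · simp only [rk'] at h
    have := hM x
    omega
  · simp only [rk'] at h
    have := hM y
    omega
  · simp only [rk'] at h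
    rw [code_inj l (Nat.add_left_cancel h)]

/-- The invariant of the walks starting at a new vertex. -/
def Inv2 {V : Type} {l : ℕ} (a b : V) (j t : ℕ) (z : V' V l) : Prop :=
  ∃ i : Fin l, z = Sum.inr (a, b, i) ∧ (i : ℕ) ≤ j + t

theorem Inv2.step {V : Type} {G : SimpleGraph V} {l : ℕ} {a b : V} {j t : ℕ}
    {z z' : V' V l} (h : Inv2 a b j t z) (hadj : (G' G l).Adj z z')
    (hS : ∀ y, z' ≠ Sum.inl y) : Inv2 a b j (t + 1) z' := by
  rw [G', SimpleGraph.fromRel_adj] at hadj
  obtain ⟨_, hR⟩ := hadj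
  obtain ⟨i, rfl, hi⟩ := h
  match z', hR, hS with
  | Sum.inl y, hR, hS => exact absurd rfl (hS y)
  | Sum.inr (a', b', i'), hR, hS =>
    simp only [R] at hR
    rcases hR with ⟨rfl, rfl, h3⟩ | ⟨rfl, rfl, h3⟩
    · exact ⟨i', rfl, by omega⟩
    · exact ⟨i', rfl, by omega⟩

theorem Inv2.walk {V : Type} {G : SimpleGraph V} {l : ℕ} {a b : V} {j : ℕ}
    {z z' : V' V l} (q : (G' G l).Walk z z') :
    ∀ {t : ℕ}, Inv2 a b j t z → (∀ u ∈ q.support, ∀ y, u ≠ Sum.inl y) →
      Inv2 a b j (t + q.length) z' := by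
  induction q with
  | nil => intro t h _; simpa using h
  | @cons u v w hadj p ih =>
    intro t h hS
    have h1 : Inv2 a b j (t + 1) v := h.step hadj (hS v (by simp))
    have h2 := ih h1 (fun u hu => hS u (by simp [hu]))
    rw [SimpleGraph.Walk.length_cons]
    have : t + 1 + p.length = t + (p.length + 1) := by ring
    rwa [this] at h2

/-- Weak reachability of a new vertex. -/
theorem wr_inr {V : Type} [Fintype V] {G : SimpleGraph V} {rk : V → ℕ} {l M : ℕ}
    (hM : ∀ x, rk x < M) {d : ℕ} {v : V' V l} {a b : V} {j : Fin l}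
    (h : WR (G' G l) (rk' rk l M) d v (Sum.inr (a, b, j))) :
    ∃ i : Fin l, v = Sum.inr (a, b, i) ∧ (j : ℕ) ≤ i ∧ (i : ℕ) ≤ j + d := by
  obtain ⟨p, hp, hS⟩ := h
  have h1 : Inv2 a b (j : ℕ) 0 (Sum.inr (a, b, j) : V' V l) := ⟨j, rfl, by omega⟩
  have h2 := h1.walk p (by
    intro u hu y hy
    have := hS u hu
    rw [hy] at this
    simp only [rk'] at this
    have := hM y
    omega)
  obtain ⟨i, rfl, hi⟩ := h2
  refine ⟨i, rfl, ?_, by omega⟩
  have := hS _ p.end_mem_support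
  simp only [rk', code] at this
  omega

/-- Weak reachability of an old vertex. -/
theorem wr_inl {V : Type} [Fintype V] {G : SimpleGraph V} {rk : V → ℕ} {l M : ℕ}
    {d : ℕ} {v : V' V l} {x : V}
    (h : WR (G' G l) (rk' rk l M) d v (Sum.inl x)) :
    (∃ y, v = Sum.inl y ∧ WR G rk (d / (l + 1)) y x) ∨
    (∃ a b i, v = Sum.inr (a, b, i) ∧
      (WR G rk (d / (l + 1)) a x ∨ WR G rk (d / (l + 1)) b x)) := by
  obtain ⟨p, hp, hS⟩ := h
  have h1 : Inv G l x (fun z => rk' rk l M (Sum.inl x) ≤ rk' rk l M z) 0 (Sum.inl x) :=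
    Inv.start (le_refl _)
  have h2 := h1.walk p hS
  rw [Nat.zero_add] at h2
  match v, p, hp, h2 with
  | Sum.inl y, p, hp, h2 =>
    left
    obtain ⟨q, hq, hqS⟩ := h2
    refine ⟨y, rfl, q, ?_, hqS⟩
    rw [Nat.le_div_iff_mul_le (by omega)]
    omega
  | Sum.inr (a, b, i), p, hp, h2 =>
    right
    refine ⟨a, b, i, rfl, ?_⟩
    rcases h2 with ⟨q, hq, hqS⟩ | ⟨_, q, hq, hqS⟩
    · left
      refine ⟨q, ?_, hqS⟩
      rw [Nat.le_div_iff_mul_le (by omega)]
      omega
    · right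
      refine ⟨q, ?_, hqS⟩
      rw [Nat.le_div_iff_mul_le (by omega)]
      omega

/-- The walk along a subdivided edge. -/
theorem exists_walk {V : Type} (G : SimpleGraph V) (l : ℕ) (x y : V) :
    ∀ (i : ℕ) (hi : i < l), ∃ p : (G' G l).Walk (Sum.inl x) (Sum.inr (x, y, ⟨i, hi⟩)),
      p.length = i + 1 := by
  intro i
  induction i with
  | zero =>
    intro hi
    have hadj : (G' G l).Adj (Sum.inl x) (Sum.inr (x, y, ⟨0, hi⟩)) := by
      rw [G', SimpleGraph.fromRel_adj]
      exact ⟨by simp, Or.inl ⟨rfl, rfl⟩⟩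
    exact ⟨SimpleGraph.Walk.cons hadj SimpleGraph.Walk.nil, by simp⟩
  | succ i ih =>
    intro hi
    obtain ⟨p, hp⟩ := ih (by omega)
    have hadj : (G' G l).Adj (Sum.inr (x, y, ⟨i, by omega⟩)) (Sum.inr (x, y, ⟨i + 1, hi⟩)) := by
      rw [G', SimpleGraph.fromRel_adj]
      exact ⟨by simp, Or.inl ⟨rfl, rfl, rfl⟩⟩
    exact ⟨p.concat hadj, by rw [SimpleGraph.Walk.length_concat, hp]⟩

end Subdiv

open Subdiv in
/-- PART S (file Subdiv.lean) -/
theorem subdivide {V : Type} [Fintype V] (G : SimpleGraph V) (rk : V → ℕ)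
    (hrk : Function.Injective rk) (l : ℕ) (hl : 1 ≤ l) (g : ℕ → ℕ)
    (hg : ∀ d v, {w | WR G rk d v w}.ncard ≤ g d) :
    ∃ (V' : Type) (_ : Fintype V') (G' : SimpleGraph V') (rk' : V' → ℕ) (ι : V → V'),
      Function.Injective rk' ∧
      (∀ d v, {w | WR G' rk' d v w}.ncard ≤ d + 1 + 2 * g (d / (l + 1))) ∧
      (∀ x y, G.Adj x y → G'.edist (ι x) (ι y) ≤ ((l + 1 : ℕ) : ℕ∞)) ∧
      ∀ x y, G.edist x y ≤ G'.edist (ι x) (ι y) := by
  classical
  obtain ⟨M, hM⟩ : ∃ M, ∀ x, rk x < M :=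
    ⟨(Finset.univ.sup rk) + 1, fun x => Nat.lt_succ_of_le (Finset.le_sup (Finset.mem_univ x))⟩
  refine ⟨Subdiv.V' V l, inferInstance, Subdiv.G' G l, Subdiv.rk' rk l M, Sum.inl,
    rk'_inj hrk hM, ?_, ?_, ?_⟩
  · intro d v
    rcases v with y | ⟨a, b, i⟩
    · have hsub : {w | WR (Subdiv.G' G l) (Subdiv.rk' rk l M) d (Sum.inl y) w} ⊆
          Sum.inl '' {w | WR G rk (d / (l + 1)) y w} := by
        rintro (x | ⟨a, b, j⟩) hw
        · rcases wr_inl hw with ⟨y', hy', h⟩ | ⟨a, b, i, h, _⟩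
          · rw [Sum.inl.injEq] at hy'
            subst hy'
            exact ⟨x, h, rfl⟩
          · cases h
        · obtain ⟨i, h, _⟩ := wr_inr hM hw
          cases h
      have h1 := Set.ncard_le_ncard hsub (Set.toFinite _)
      have h2 := Set.ncard_image_le (f := (Sum.inl : V → Subdiv.V' V l))
        (Set.toFinite {w | WR G rk (d / (l + 1)) y w})
      have h3 := hg (d / (l + 1)) y
      omega
    · have hsub : {w | WR (Subdiv.G' G l) (Subdiv.rk' rk l M) d (Sum.inr (a, b, i)) w} ⊆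
          Sum.inl '' ({w | WR G rk (d / (l + 1)) a w} ∪ {w | WR G rk (d / (l + 1)) b w}) ∪
          Sum.inr '' ((fun j : Fin l => (a, b, j)) '' {j : Fin l | (j : ℕ) ≤ i ∧ (i : ℕ) ≤ j + d}) := by
        rintro (x | ⟨a', b', j⟩) hw
        · left
          rcases wr_inl hw with ⟨y', hy', h⟩ | ⟨a', b', i', h, h'⟩
          · cases hy'
          · rw [Sum.inr.injEq, Prod.mk.injEq, Prod.mk.injEq] at h
            obtain ⟨rfl, rfl, rfl⟩ := h
            exact ⟨x, h', rfl⟩
        · right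
          obtain ⟨i', h, h'⟩ := wr_inr hM hw
          rw [Sum.inr.injEq, Prod.mk.injEq, Prod.mk.injEq] at h
          obtain ⟨rfl, rfl, rfl⟩ := h
          exact ⟨_, ⟨j, h', rfl⟩, rfl⟩
      have h1 := Set.ncard_le_ncard hsub (Set.toFinite _)
      have h2 := Set.ncard_union_le (Sum.inl ''
        ({w | WR G rk (d / (l + 1)) a w} ∪ {w | WR G rk (d / (l + 1)) b w}) : Set (Subdiv.V' V l))
        (Sum.inr '' ((fun j : Fin l => (a, b, j)) '' {j : Fin l | (j : ℕ) ≤ i ∧ (i : ℕ) ≤ j + d}))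
      have h3 := Set.ncard_image_le (f := (Sum.inl : V → Subdiv.V' V l))
        (Set.toFinite ({w | WR G rk (d / (l + 1)) a w} ∪ {w | WR G rk (d / (l + 1)) b w}))
      have h4 := Set.ncard_union_le {w | WR G rk (d / (l + 1)) a w}
        {w | WR G rk (d / (l + 1)) b w}
      have h5 := hg (d / (l + 1)) a
      have h6 := hg (d / (l + 1)) b
      have h7 := Set.ncard_image_le (f := (Sum.inr : V × V × Fin l → Subdiv.V' V l))
        (Set.toFinite ((fun j : Fin l => (a, b, j)) '' {j : Fin l | (j : ℕ) ≤ i ∧ (i : ℕ) ≤ j + d}))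
      have h8 := Set.ncard_image_le (f := fun j : Fin l => (a, b, j))
        (Set.toFinite {j : Fin l | (j : ℕ) ≤ i ∧ (i : ℕ) ≤ j + d})
      have h9 : {j : Fin l | (j : ℕ) ≤ i ∧ (i : ℕ) ≤ j + d}.ncard ≤ d + 1 := by
        have h10 : ((fun j : Fin l => (j : ℕ)) '' {j : Fin l | (j : ℕ) ≤ i ∧ (i : ℕ) ≤ j + d}).ncard
            = {j : Fin l | (j : ℕ) ≤ i ∧ (i : ℕ) ≤ j + d}.ncard :=
          Set.ncard_image_of_injective _ Fin.val_injective
        rw [← h10]
        have h11 : ((fun j : Fin l => (j : ℕ)) '' {j : Fin l | (j : ℕ) ≤ i ∧ (i : ℕ) ≤ j + d}) ⊆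
            (Finset.Icc ((i : ℕ) - d) i : Set ℕ) := by
          rintro _ ⟨j, ⟨hj1, hj2⟩, rfl⟩
          simp only [Finset.coe_Icc, Set.mem_Icc]
          omega
        refine (Set.ncard_le_ncard h11 (Finset.finite_toSet _)).trans ?_
        rw [Set.ncard_coe_finset, Nat.card_Icc]
        omega
      omega
  · intro x y hxy
    obtain ⟨p, hp⟩ := exists_walk G l x y (l - 1) (by omega)
    have hadj : (Subdiv.G' G l).Adj (Sum.inr (x, y, ⟨l - 1, by omega⟩)) (Sum.inl y) := by
      rw [Subdiv.G', SimpleGraph.fromRel_adj]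
      exact ⟨by simp, Or.inl ⟨rfl, by simp only; omega, hxy⟩⟩
    have h1 := (p.concat hadj).edist_le
    rw [SimpleGraph.Walk.length_concat, hp] at h1
    have h2 : l - 1 + 1 + 1 = l + 1 := by omega
    rwa [h2] at h1
  · intro x y
    by_cases htop : (Subdiv.G' G l).edist (Sum.inl x) (Sum.inl y) = ⊤
    · rw [htop]
      exact le_top
    · obtain ⟨p, hp⟩ := SimpleGraph.exists_walk_of_edist_ne_top htop
      rw [← hp]
      have h1 : Inv G l x (fun _ => True) 0 (Sum.inl x) := Inv.start trivial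
      have h2 := h1.walk p (by simp)
      obtain ⟨q, hq, _⟩ := h2
      refine q.edist_le.trans ?_
      have : q.length ≤ p.length := by nlinarith
      exact_mod_cast this

end Pool.Agent.Lib_MP_75b583_co
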