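import Pool.Agent.Lib_MP_75b583_co.Induct
import Pool.Agent.Lib_MP_75b583_co.Minor
import Pool.Agent.Lib_MP_75b583_co.Subdiv

/-!
# Assembly
-/

open SimpleGraph

namespace Pool.Agent.Lib_MP_75b583_co

lemma polylog {n : ℕ} (hn : 1 ≤ n) {x : ℕ} (hx : 1 ≤ x) :
    (2 * Nat.log 2 x + 5) ^ n ≤ (2 * n + 5) ^ n * x := by
  set y := Nat.log 2 x with hy
  have h1 : y < n * (y / n + 1) := Nat.lt_mul_div_succ y (by omega)
  have h2 : y / n + 1 ≤ 2 ^ (y / n) := Nat.lt_two_pow_self
  have h3 : 2 * y + 5 ≤ (2 * n + 5) * 2 ^ (y / n) := by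
    have h6 : 1 ≤ y / n + 1 := Nat.le_add_left _ _
    have h4 : 2 * y + 5 ≤ 2 * (n * (y / n + 1)) + 5 * (y / n + 1) := by linarith
    have h5 := Nat.mul_le_mul_left (2 * n + 5) h2
    refine le_trans (h4.trans (le_of_eq ?_)) h5
    ring
  calc (2 * y + 5) ^ n ≤ ((2 * n + 5) * 2 ^ (y / n)) ^ n := Nat.pow_le_pow_left h3 n
    _ = (2 * n + 5) ^ n * 2 ^ (y / n * n) := by rw [mul_pow, ← pow_mul]
    _ ≤ (2 * n + 5) ^ n * 2 ^ y :=
      Nat.mul_le_mul_left _ (Nat.pow_le_pow_right (by norm_num) (Nat.div_mul_le_self y n))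
    _ ≤ (2 * n + 5) ^ n * x := Nat.mul_le_mul_left _ (Nat.pow_log_le_self 2 (by omega))

/-- The bound for weak reachability, corrected at `0`. -/
def gb (n d : ℕ) : ℕ := if d = 0 then 1 else (d + 1) * (2 * Nat.log 2 (d + 1) + 5) ^ n

lemma gb_bound {n : ℕ} (hn : 1 ≤ n) (d : ℕ) :
    d + 1 + 2 * gb n (d / (2 * (2 * n + 5) ^ n + 1)) ≤ 3 * (d + 1) ^ 2 := by
  set c := (2 * n + 5) ^ n with hc
  set q := d / (2 * c + 1) with hq
  unfold gb
  split_ifs with h0
  · nlinarith [Nat.zero_le d]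
  · have hq1 : 1 ≤ q := Nat.one_le_iff_ne_zero.2 h0
    have hc1 : 1 ≤ c := Nat.one_le_pow _ _ (by omega)
    have h1 : (2 * Nat.log 2 (q + 1) + 5) ^ n ≤ c * (q + 1) := polylog hn (by omega)
    have h2 : q * (2 * c + 1) ≤ d := Nat.div_mul_le_self d _
    have h3 : (q + 1) * (2 * Nat.log 2 (q + 1) + 5) ^ n ≤ d ^ 2 := by
      calc (q + 1) * (2 * Nat.log 2 (q + 1) + 5) ^ n ≤ (q + 1) * (c * (q + 1)) :=
            Nat.mul_le_mul_left _ h1
        _ ≤ (2 * q) * (c * (2 * q)) := by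
            refine Nat.mul_le_mul (by omega) (Nat.mul_le_mul_left _ (by omega))
        _ ≤ (q * (2 * c + 1)) ^ 2 := by
            have h4 : c * 1 ≤ c * c := Nat.mul_le_mul_left _ hc1
            have h5 : 4 * c ≤ (2 * c + 1) ^ 2 := by nlinarith
            have h6 := Nat.mul_le_mul_left (q ^ 2) h5
            calc (2 * q) * (c * (2 * q)) = q ^ 2 * (4 * c) := by ring
              _ ≤ q ^ 2 * (2 * c + 1) ^ 2 := h6
              _ = (q * (2 * c + 1)) ^ 2 := by ring
        _ ≤ d ^ 2 := Nat.pow_le_pow_left h2 2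
    nlinarith

lemma edist_hom_le {V W : Type*} {G : SimpleGraph V} {H : SimpleGraph W} (f : G →g H) (x y : V) :
    H.edist (f x) (f y) ≤ G.edist x y := by
  refine le_iInf fun p => ?_
  have := SimpleGraph.Walk.edist_le (p.map f)
  rwa [Walk.length_map] at this

lemma WR_zero {V : Type*} {G : SimpleGraph V} {rk : V → ℕ} {v w : V} (h : WR G rk 0 v w) :
    w = v := by
  obtain ⟨p, hp, -⟩ := h
  exact Walk.eq_of_length_eq_zero (Nat.le_zero.1 hp)

/-- The graphs which show that the answer is negative. -/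
theorem main_graph (n : ℕ) (hn : 1 ≤ n) : ∃ l : ℕ, ∀ D : ℕ, ∃ (N : ℕ) (G : SimpleGraph (Fin N))
    (rk : Fin N → ℕ), Function.Injective rk ∧
    (∀ d v, {w | WR G rk d v w}.ncard ≤ 3 * (d + 1) ^ 2) ∧
    ∀ col : Fin N → Fin n, ∃ u v,
      Relation.ReflTransGen (fun x y => col x = col y ∧ G.edist x y ≤ ((l + 1 : ℕ) : ℕ∞)) u v ∧
      ¬ G.edist u v < (D : ℕ∞) := by
  refine ⟨2 * (2 * n + 5) ^ n, fun D => ?_⟩
  have hc1 : 1 ≤ (2 * n + 5) ^ n := Nat.one_le_pow _ _ (by omega)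
  obtain ⟨V, hV1, hV2, G, rk, z, F, hinj, hWR, hz, hF⟩ := exists_graph n D
  have hg : ∀ d v, {w | WR G rk d v w}.ncard ≤ gb n d := by
    intro d v
    unfold gb
    split_ifs with h0
    · subst h0
      have h1 : {w | WR G rk 0 v w} ⊆ {v} := fun w hw => WR_zero hw
      have h2 := Set.ncard_le_ncard h1 (Set.finite_singleton v)
      rwa [Set.ncard_singleton] at h2
    · exact hWR d v
  obtain ⟨V', hV', G', rk', ι, hinj', hWR', hι1, hι2⟩ :=
    subdivide G rk hinj (2 * (2 * n + 5) ^ n) (by omega) (gb n) hg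
  let f : V' ≃ Fin (Fintype.card V') := Fintype.equivFin V'
  let G'' : SimpleGraph (Fin (Fintype.card V')) := G'.comap f.symm
  let hom1 : G'' →g G' := ⟨f.symm, fun {a b} hab => hab⟩
  let hom2 : G' →g G'' := ⟨f, fun {a b} hab => by
    show G'.Adj (f.symm (f a)) (f.symm (f b))
    rwa [Equiv.symm_apply_apply, Equiv.symm_apply_apply]⟩
  refine ⟨Fintype.card V', G'', fun x => rk' (f.symm x), ?_, ?_, ?_⟩
  · exact hinj'.comp f.symm.injective
  · intro d v
    have h1 : {w | WR G'' (fun x => rk' (f.symm x)) d v w}.ncard ≤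
        {w | WR G' rk' d (f.symm v) w}.ncard := by
      refine Set.ncard_le_ncard_of_injOn f.symm ?_ f.symm.injective.injOn (Set.toFinite _)
      rintro w ⟨p, hp1, hp2⟩
      refine ⟨p.map hom1, ?_, ?_⟩
      · rw [Walk.length_map]; exact hp1
      · intro x hx
        rw [Walk.support_map, List.mem_map] at hx
        obtain ⟨y, hy, rfl⟩ := hx
        exact hp2 y hy
    exact h1.trans ((hWR' d _).trans (gb_bound hn d))
  · intro col
    by_contra hcon
    push Not at hcon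
    have hsymm : ∀ u v, Relation.ReflTransGen
        (fun x y => col x = col y ∧ G''.edist x y ≤ ((2 * (2 * n + 5) ^ n + 1 : ℕ) : ℕ∞)) u v →
        Relation.ReflTransGen
        (fun x y => col x = col y ∧ G''.edist x y ≤ ((2 * (2 * n + 5) ^ n + 1 : ℕ) : ℕ∞)) v u := by
      intro u v huv
      induction huv with
      | refl => exact Relation.ReflTransGen.refl
      | tail _ h ih =>
        refine Relation.ReflTransGen.head ⟨h.1.symm, ?_⟩ ih
        rw [SimpleGraph.edist_comm]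
        exact h.2
    refine hz.no_colouring (D := D) hF
      (fun u v => Relation.ReflTransGen
        (fun x y => col x = col y ∧ G''.edist x y ≤ ((2 * (2 * n + 5) ^ n + 1 : ℕ) : ℕ∞))
        (f (ι u)) (f (ι v))) ?_ ?_ (fun v => col (f (ι v))) ?_
    · exact ⟨fun _ => Relation.ReflTransGen.refl, fun huv => hsymm _ _ huv,
        fun h1 h2 => h1.trans h2⟩
    · intro u v huv
      have h1 := hcon _ _ huv
      have h2 := edist_hom_le hom1 (f (ι u)) (f (ι v))
      have h3 : hom1 (f (ι u)) = ι u := f.symm_apply_apply _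
      have h4 : hom1 (f (ι v)) = ι v := f.symm_apply_apply _
      rw [h3, h4] at h2
      exact ((hι2 u v).trans h2).trans_lt h1
    · intro u v huv hcol
      refine Relation.ReflTransGen.single ⟨hcol, ?_⟩
      exact (edist_hom_le hom2 (ι u) (ι v)).trans (hι1 u v huv)

end Pool.Agent.Lib_MP_75b583_co
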