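import Pool.Agent.Lib_MP_75b583_co.Prism

/-!
# The iterated construction
-/

open SimpleGraph

namespace Pool.Agent.Lib_MP_75b583_co

variable {V : Type}

/-- The projection to the base is 1-Lipschitz. -/
lemma edist_proj {G : SimpleGraph V} {e : V → ℕ} {L : ℕ} (x y : WV e L) :
    G.edist x.1.1 y.1.1 ≤ (wg G e L).edist x y := by
  refine le_iInf fun p => ?_
  induction p with
  | nil => simp
  | @cons u v w hadj p ih =>
    rw [Walk.length_cons]
    refine (SimpleGraph.edist_triangle (v := v.1.1)).trans ?_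
    have h1 : G.edist u.1.1 v.1.1 ≤ 1 := by
      rcases hadj with ⟨h1, -⟩ | ⟨h1, -⟩
      · rw [h1, SimpleGraph.edist_self]; exact bot_le
      · have := SimpleGraph.Walk.edist_le (Walk.cons h1 Walk.nil)
        simpa using this
    push_cast
    rw [add_comm]
    exact add_le_add ih h1

/-- Positions change slowly along walks. -/
lemma walk_pos {G : SimpleGraph V} {e : V → ℕ} {L E : ℕ} (hE : ∀ v, e v ≤ E) {x y : WV e L}
    (p : (wg G e L).Walk x y) : |(x.1.2 : ℤ) - y.1.2| ≤ p.length * 2 ^ E := by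
  induction p with
  | nil => simp
  | @cons u v w hadj p ih =>
    have h1 : |(u.1.2 : ℤ) - v.1.2| ≤ 2 ^ E := by
      rcases hadj with ⟨h1, h2⟩ | ⟨h1, h2⟩
      · have h3 : (2 : ℤ) ^ e u.1.1 ≤ 2 ^ E := pow_le_pow_right₀ (by norm_num) (hE _)
        rcases h2 with h2 | h2
        · rw [← h1] at h2
          rw [h2]; push_cast
          rw [add_sub_cancel_left, abs_of_pos (by positivity)]
          exact h3
        · rw [h2]; push_cast
          rw [show (u.1.2 : ℤ) - (u.1.2 + 2 ^ e u.1.1) = -(2 ^ e u.1.1) by ring, abs_neg,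
            abs_of_pos (by positivity)]
          exact h3
      · refine h2.trans (pow_le_pow_right₀ (by norm_num) ?_)
        have := hE u.1.1
        have := hE v.1.1
        omega
    have h2 : |(u.1.2 : ℤ) - w.1.2| ≤ |(u.1.2 : ℤ) - v.1.2| + |(v.1.2 : ℤ) - w.1.2| :=
      abs_sub_le _ _ _
    rw [Walk.length_cons]
    push_cast
    linarith

/-- The ends of the long direction are far apart. -/
lemma far_ends {G : SimpleGraph V} {e : V → ℕ} {L E D : ℕ} (hE : ∀ v, e v ≤ E)
    (hL : L = D * 2 ^ E) {x y : WV e L} (hx : x.1.2 = 0) (hy : y.1.2 = L) :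
    ¬ (wg G e L).edist x y < (D : ℕ∞) := by
  intro hlt
  have hne : (wg G e L).edist x y ≠ ⊤ := ne_top_of_lt hlt
  obtain ⟨p, hp⟩ := SimpleGraph.exists_walk_of_edist_ne_top hne
  rw [← hp] at hlt
  have hlt' : p.length < D := by exact_mod_cast hlt
  have h1 := walk_pos hE p
  have hL' : (L : ℤ) = D * 2 ^ E := by rw [hL]; push_cast; ring
  rw [hx, hy, hL'] at h1
  rw [abs_sub_comm, Nat.cast_zero, sub_zero, abs_of_nonneg (by positivity)] at h1
  have h2 : (0 : ℤ) < 2 ^ E := by positivity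
  have h3 : (p.length : ℤ) + 1 ≤ D := by exact_mod_cast hlt'
  nlinarith

/-- Property (P3) passes to the warped product. -/
lemma facets_step {G : SimpleGraph V} {e : V → ℕ} {L E D m : ℕ} {F : ℕ → Set V}
    (hE : ∀ v, e v ≤ E) (hL : L = D * 2 ^ E)
    (hF : ∀ S : Set V, (∀ x ∈ S, ∀ y ∈ S, G.edist x y < (D : ℕ∞)) → ∃ j ≤ m, ∀ x ∈ S, x ∉ F j)
    (S : Set (WV e L)) (hS : ∀ x ∈ S, ∀ y ∈ S, (wg G e L).edist x y < (D : ℕ∞)) :
    ∃ j ≤ m + 1, ∀ x ∈ S, x ∉ facet m F e L j := by
  obtain ⟨j, hj, hj'⟩ := hF ((fun x : WV e L => x.1.1) '' S) (by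
    rintro _ ⟨x, hx, rfl⟩ _ ⟨y, hy, rfl⟩
    exact (edist_proj x y).trans_lt (hS x hx y hy))
  have key : ∀ x ∈ S, x.1.1 ∉ F j := fun x hx => hj' _ ⟨x, hx, rfl⟩
  by_cases h1 : ∃ y ∈ S, j = 0 ∧ y.1.2 = L
  · obtain ⟨y, hy, h0, hyL⟩ := h1
    refine ⟨m + 1, le_rfl, ?_⟩
    rintro x hx (⟨-, h2⟩ | ⟨h2, -⟩ | ⟨h2, -⟩)
    · exact far_ends hE hL h2 hyL (hS x hx y hy)
    · omega
    · omega
  · push Not at h1
    refine ⟨j, by omega, ?_⟩
    rintro x hx (⟨h2, -⟩ | ⟨-, h2⟩ | ⟨h2, h3⟩)
    · omega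
    · exact key x hx h2
    · exact h1 x hx h2 h3

lemma exists_scale (a b : ℕ) : ∃ s, 1 ≤ s ∧ a * s + b ≤ 2 ^ (s - 1) := by
  refine ⟨2 * (2 * a + b + 1) + 1, by omega, ?_⟩
  rw [Nat.add_sub_cancel, two_mul (2 * a + b + 1), pow_add]
  have h1 : 2 * a + b + 1 + 1 ≤ 2 ^ (2 * a + b + 1) := Nat.lt_two_pow_self
  have h2 := Nat.mul_le_mul h1 h1
  refine le_trans ?_ h2
  nlinarith [Nat.zero_le a, Nat.zero_le b, Nat.zero_le (a * b)]

/-- The graphs of the iterated construction. -/
theorem exists_graph (n D : ℕ) : ∃ (V : Type) (_ : Fintype V) (_ : DecidableEq V)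
    (G : SimpleGraph V) (rk : V → ℕ) (z : Multiset (Finset V)) (F : ℕ → Set V),
    Function.Injective rk ∧
    (∀ d v, {w | WR G rk d v w}.ncard ≤ (d + 1) * (2 * Nat.log 2 (d + 1) + 5) ^ n) ∧
    SpChain G n z F ∧
    ∀ S : Set V, (∀ x ∈ S, ∀ y ∈ S, G.edist x y < (D : ℕ∞)) → ∃ j ≤ n, ∀ x ∈ S, x ∉ F j := by
  induction n with
  | zero =>
    refine ⟨Unit, inferInstance, inferInstance, ⊥, fun _ => 0, {{()}}, fun _ => ∅, ?_, ?_, ?_, ?_⟩
    · intro x y _; rfl
    · intro d v
      have h1 : {w | WR (⊥ : SimpleGraph Unit) (fun _ => 0) d v w}.ncard ≤ 1 := by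
        have := Set.ncard_le_ncard (Set.subset_univ {w | WR (⊥ : SimpleGraph Unit) (fun _ => 0) d v w})
          (Set.finite_univ)
        rwa [Set.ncard_univ, Nat.card_eq_fintype_card, Fintype.card_unit] at this
      rw [pow_zero, mul_one]
      omega
    · constructor
      · intro τ hτ
        rw [Multiset.mem_singleton] at hτ
        rw [hτ]; rfl
      · intro τ _ x _ y _ hxy
        exact absurd rfl hxy
      · intro φ hφ
        rw [Multiset.map_singleton, Multiset.sum_singleton, Finset.sum_singleton]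
        apply hφ
        refine ⟨0, le_rfl, ?_⟩
        intro x hx
        rw [Finset.mem_erase] at hx
        exact absurd rfl hx.1
      · intro ℓ hℓ _
        rw [Multiset.map_singleton, Multiset.sum_singleton]
        unfold rb
        rw [if_pos]
        rw [Finset.image_singleton]
        have := hℓ ()
        have h0 : ℓ () = 0 := by omega
        rw [h0]; rfl
    · intro S _
      exact ⟨0, le_rfl, fun x _ hx => hx⟩
  | succ n ih =>
    obtain ⟨V, hV1, hV2, G, rk, z, F, hinj, hWR, hz, hF⟩ := ih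
    obtain ⟨K, hK⟩ : ∃ K, ∀ v, rk v ≤ K := by
      refine ⟨∑ v, rk v, fun v => ?_⟩
      exact Finset.single_le_sum (f := rk) (fun _ _ => Nat.zero_le _) (Finset.mem_univ v)
    obtain ⟨s, hs1, hs2⟩ := exists_scale (2 * Fintype.card V * K) (2 * Fintype.card V * (D + 2))
    have hpar : Par rk (fun v => s * (K - rk v) + 1) s (s * K + 1 + D) (D * 2 ^ (s * K + 1)) K := by
      refine ⟨hs1, hK, hinj, fun v => by omega, ?_, ?_, ?_, ?_⟩
      · intro v
        have : s * (K - rk v) ≤ s * K := Nat.mul_le_mul_left _ (Nat.sub_le _ _)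
        show s * (K - rk v) + 1 ≤ _
        omega
      · intro u v huv
        have h1 := hK v
        have h2 : K - rk v + 1 ≤ K - rk u := by omega
        have h3 := Nat.mul_le_mul_left s h2
        rw [mul_add, mul_one] at h3
        show s * (K - rk v) + 1 + s ≤ s * (K - rk u) + 1
        omega
      · rw [pow_add 2 (s * K + 1) D, mul_comm D]
        exact Nat.mul_lt_mul_of_pos_left Nat.lt_two_pow_self (by positivity)
      · intro v
        have h1 : s * (K - rk v) ≤ s * K := Nat.mul_le_mul_left _ (Nat.sub_le _ _)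
        exact (pow_dvd_pow 2 (by omega)).trans (Dvd.intro_left _ rfl)
    have hE : ∀ v, (fun v => s * (K - rk v) + 1) v ≤ s * K + 1 := by
      intro v
      have : s * (K - rk v) ≤ s * K := Nat.mul_le_mul_left _ (Nat.sub_le _ _)
      show s * (K - rk v) + 1 ≤ _
      omega
    refine ⟨WV (fun v => s * (K - rk v) + 1) (D * 2 ^ (s * K + 1)), Fintype.ofFinite _,
      inferInstance, wg G _ _, rk' rk _ (s * K + 1 + D) _ K, prisms hpar z,
      facet n F _ _, hpar.rk'_inj, ?_, prisms_spChain hpar hz, ?_⟩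
    · intro d x
      refine hpar.ncard_WR G ?_ n hWR d x
      refine le_trans (le_of_eq ?_) hs2
      ring
    · exact facets_step hE rfl hF

end Pool.Agent.Lib_MP_75b583_co
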