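import Mathlib

/-!
# Sperner chains
-/

open SimpleGraph

namespace Pool.Agent.Lib_MP_75b583_co

variable {V : Type} [DecidableEq V]

/-- The indicator (mod 2) of the sets whose labels are exactly `0, ..., m`. -/
def rb (m : ℕ) (ℓ : V → ℕ) (τ : Finset V) : ZMod 2 :=
  if τ.image ℓ = Finset.range (m + 1) then 1 else 0

/-- An `m`-dimensional chain of cliques modulo 2 which satisfies Sperner's lemma relative to the
family `F` of facets. -/
structure SpChain (G : SimpleGraph V) (m : ℕ) (z : Multiset (Finset V)) (F : ℕ → Set V) :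
    Prop where
  card : ∀ τ ∈ z, τ.card = m + 1
  clq : ∀ τ ∈ z, ∀ x ∈ τ, ∀ y ∈ τ, x ≠ y → G.Adj x y
  bd : ∀ φ : Finset V → ZMod 2, (∀ ρ : Finset V, (∃ j ≤ m, ∀ x ∈ ρ, x ∈ F j) → φ ρ = 0) →
    (z.map fun τ => ∑ v ∈ τ, φ (τ.erase v)).sum = 0
  odd : ∀ ℓ : V → ℕ, (∀ v, ℓ v ≤ m) → (∀ v, ∀ j ≤ m, v ∈ F j → ℓ v ≠ j) →
    (z.map (rb m ℓ)).sum = 1

/-- The facet lemma. -/
lemma sum_rb_erase {m : ℕ} {ℓ : V → ℕ} {σ : Finset V} (hc : σ.card = m + 2)
    (hl : ∀ x ∈ σ, ℓ x ≤ m + 1) : ∑ a ∈ σ, rb m ℓ (σ.erase a) = rb (m + 1) ℓ σ := by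
  by_cases h1 : Finset.range (m + 1) ⊆ σ.image ℓ
  · -- all labels `0, ..., m` occur
    by_cases h2 : σ.image ℓ = Finset.range (m + 2)
    · -- rainbow
      have hinj : Set.InjOn ℓ σ := by
        rw [← Finset.card_image_iff, h2, Finset.card_range, hc]
      have hmem : m + 1 ∈ σ.image ℓ := by rw [h2]; simp
      obtain ⟨b, hb, hbl⟩ := Finset.mem_image.1 hmem
      have h3 : ∀ a ∈ σ, rb m ℓ (σ.erase a) = if a = b then 1 else 0 := by
        intro a ha
        unfold rb
        congr 1
        have h4 : (σ.erase a).image ℓ = (σ.image ℓ).erase (ℓ a) := by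
          ext x
          simp only [Finset.mem_image, Finset.mem_erase]
          constructor
          · rintro ⟨y, ⟨hy1, hy2⟩, rfl⟩
            exact ⟨fun hh => hy1 (hinj hy2 ha hh), y, hy2, rfl⟩
          · rintro ⟨hx, y, hy, rfl⟩
            exact ⟨y, ⟨fun hh => hx (by rw [hh]), hy⟩, rfl⟩
        rw [h4, h2]
        rw [eq_iff_iff]
        constructor
        · intro h5
          have h6 : m + 1 ∉ (Finset.range (m + 2)).erase (ℓ a) := by rw [h5]; simp
          simp only [Finset.mem_erase, Finset.mem_range, not_and, not_lt] at h6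
          by_contra hab
          have h7 : m + 1 ≠ ℓ a := by
            intro h8
            exact hab (hinj ha hb (by rw [hbl, h8]))
          have := h6 h7
          omega
        · rintro rfl
          rw [hbl]
          ext x
          simp only [Finset.mem_erase, Finset.mem_range]
          omega
      rw [Finset.sum_congr rfl h3, Finset.sum_ite_eq' σ b, if_pos hb]
      unfold rb
      rw [if_pos h2]
    · -- the label set is exactly `0, ..., m`
      have h3 : σ.image ℓ = Finset.range (m + 1) := by
        refine le_antisymm ?_ h1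
        intro x hx
        obtain ⟨y, hy, rfl⟩ := Finset.mem_image.1 hx
        have h4 := hl y hy
        rcases Nat.lt_or_ge (ℓ y) (m + 1) with h5 | h5
        · exact Finset.mem_range.2 h5
        · exfalso
          apply h2
          refine le_antisymm ?_ ?_
          · intro w hw
            obtain ⟨u, hu, rfl⟩ := Finset.mem_image.1 hw
            exact Finset.mem_range.2 (Nat.lt_succ_of_le (hl u hu))
          · intro w hw
            rw [Finset.mem_range] at hw
            rcases Nat.lt_or_ge w (m + 1) with h6 | h6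
            · exact h1 (Finset.mem_range.2 h6)
            · have : w = ℓ y := by omega
              rw [this]
              exact Finset.mem_image_of_mem _ hy
      have h4 : rb (m + 1) ℓ σ = 0 := by
        unfold rb
        rw [if_neg h2]
      rw [h4]
      -- exactly one repeated label
      have hle : (σ.image ℓ).card < σ.card := by
        rw [h3, hc, Finset.card_range]; omega
      obtain ⟨a, ha, b, hb, hab, hlab⟩ := Finset.exists_ne_map_eq_of_card_lt_of_maps_to hle
        (f := ℓ) (fun x hx => Finset.mem_image_of_mem _ hx)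
      have himg : (σ.erase a).image ℓ = Finset.range (m + 1) := by
        rw [← h3]
        refine le_antisymm (Finset.image_subset_image (Finset.erase_subset _ _)) ?_
        intro x hx
        obtain ⟨y, hy, rfl⟩ := Finset.mem_image.1 hx
        by_cases hya : y = a
        · rw [hya, hlab]
          exact Finset.mem_image_of_mem _ (Finset.mem_erase.2 ⟨hab.symm, hb⟩)
        · exact Finset.mem_image_of_mem _ (Finset.mem_erase.2 ⟨hya, hy⟩)
      have himg' : (σ.erase b).image ℓ = Finset.range (m + 1) := by
        rw [← h3]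
        refine le_antisymm (Finset.image_subset_image (Finset.erase_subset _ _)) ?_
        intro x hx
        obtain ⟨y, hy, rfl⟩ := Finset.mem_image.1 hx
        by_cases hya : y = b
        · rw [hya, ← hlab]
          exact Finset.mem_image_of_mem _ (Finset.mem_erase.2 ⟨hab, ha⟩)
        · exact Finset.mem_image_of_mem _ (Finset.mem_erase.2 ⟨hya, hy⟩)
      have hinj : Set.InjOn ℓ (σ.erase a) := by
        rw [← Finset.card_image_iff, himg, Finset.card_erase_of_mem ha, Finset.card_range, hc]
        rfl
      have h5 : ∀ c ∈ σ, c ≠ a → c ≠ b → rb m ℓ (σ.erase c) = 0 := by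
        intro c hcs hca hcb
        unfold rb
        rw [if_neg]
        intro h6
        have h7 : ℓ c ∈ (σ.erase c).image ℓ := by
          rw [h6, ← h3]; exact Finset.mem_image_of_mem _ hcs
        obtain ⟨y, hy, hyc⟩ := Finset.mem_image.1 h7
        rw [Finset.mem_erase] at hy
        by_cases hya : y = a
        · rw [hya, hlab] at hyc
          exact hcb (hinj (Finset.mem_erase.2 ⟨hca, hcs⟩) (Finset.mem_erase.2 ⟨hab.symm, hb⟩)
            hyc.symm)
        · exact hy.1 (hinj (Finset.mem_erase.2 ⟨hya, hy.2⟩) (Finset.mem_erase.2 ⟨hca, hcs⟩) hyc)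
      have h6 : ∑ c ∈ σ, rb m ℓ (σ.erase c) = ∑ c ∈ ({a, b} : Finset V), rb m ℓ (σ.erase c) := by
        symm
        apply Finset.sum_subset
        · intro x hx
          rw [Finset.mem_insert, Finset.mem_singleton] at hx
          rcases hx with rfl | rfl
          · exact ha
          · exact hb
        · intro x hx hx'
          rw [Finset.mem_insert, Finset.mem_singleton, not_or] at hx'
          exact h5 x hx hx'.1 hx'.2
      rw [h6, Finset.sum_pair hab]
      unfold rb
      rw [if_pos himg, if_pos himg']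
      decide
  · -- a label in `0, ..., m` is missing
    have h2 : rb (m + 1) ℓ σ = 0 := by
      unfold rb
      rw [if_neg]
      intro h
      apply h1
      rw [h]
      exact Finset.range_mono (by omega)
    rw [h2]
    apply Finset.sum_eq_zero
    intro a _
    unfold rb
    rw [if_neg]
    intro h
    apply h1
    rw [← h]
    exact Finset.image_subset_image (Finset.erase_subset _ _)

/-- The consequence for colourings. -/
theorem SpChain.no_colouring {G : SimpleGraph V} {n : ℕ} {z : Multiset (Finset V)}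
    {F : ℕ → Set V} (h : SpChain G n z F) {D : ℕ}
    (hF : ∀ S : Set V, (∀ x ∈ S, ∀ y ∈ S, G.edist x y < (D : ℕ∞)) → ∃ j ≤ n, ∀ x ∈ S, x ∉ F j)
    (E : V → V → Prop) (hE : Equivalence E) (hED : ∀ u v, E u v → G.edist u v < (D : ℕ∞))
    (col : V → Fin n) (hcol : ∀ u v, G.Adj u v → col u = col v → E u v) : False := by
  have key : ∀ S : Set V, ∃ j, (∀ x ∈ S, ∀ y ∈ S, G.edist x y < (D : ℕ∞)) →
      (j ≤ n ∧ ∀ x ∈ S, x ∉ F j) := by
    intro S
    by_cases hS : ∀ x ∈ S, ∀ y ∈ S, G.edist x y < (D : ℕ∞)
    · obtain ⟨j, hj⟩ := hF S hS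
      exact ⟨j, fun _ => hj⟩
    · exact ⟨0, fun hh => absurd hh hS⟩
  choose f hf using key
  have hsm : ∀ v, ∀ x ∈ {w | E v w}, ∀ y ∈ {w | E v w}, G.edist x y < (D : ℕ∞) :=
    fun v x hx y hy => hED x y (hE.trans (hE.symm hx) hy)
  have hE' : ∀ u v, E u v → f {w | E u w} = f {w | E v w} := by
    intro u v huv
    congr 1
    ext w
    exact ⟨fun hw => hE.trans (hE.symm huv) hw, fun hw => hE.trans huv hw⟩
  have h1 := h.odd (fun v => f {w | E v w}) (fun v => (hf _ (hsm v)).1) (by
    intro v j _ hvj hfj
    have := (hf _ (hsm v)).2 v (hE.refl v)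
    rw [hfj] at this
    exact this hvj)
  have h2 : ∃ τ ∈ z, rb n (fun v => f {w | E v w}) τ ≠ 0 := by
    by_contra hcon
    push Not at hcon
    rw [Multiset.sum_eq_zero] at h1
    · exact absurd h1 (by decide)
    · intro x hx
      obtain ⟨τ, hτ, rfl⟩ := Multiset.mem_map.1 hx
      exact hcon τ hτ
  obtain ⟨τ, hτ, hr⟩ := h2
  have h3 : τ.image (fun v => f {w | E v w}) = Finset.range (n + 1) := by
    by_contra hcon
    unfold rb at hr
    rw [if_neg hcon] at hr
    exact hr rfl
  have hc := h.card τ hτ
  have hinj : Set.InjOn (fun v => f {w | E v w}) τ := by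
    rw [← Finset.card_image_iff, h3, Finset.card_range, hc]
  obtain ⟨a, ha, b, hb, hab, hcab⟩ := Finset.exists_ne_map_eq_of_card_lt_of_maps_to
    (s := τ) (t := (Finset.univ : Finset (Fin n))) (f := col)
    (by rw [Finset.card_univ, Fintype.card_fin, hc]; omega) (fun x _ => Finset.mem_univ _)
  exact hab (hinj ha hb (hE' a b (hcol a b (h.clq τ hτ a ha b hb hab) hcab)))

end Pool.Agent.Lib_MP_75b583_co
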