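import Pool.Agent.Lib_MP_75b583_co.Count
import Pool.Agent.Lib_MP_75b583_co.Sperner

/-!
# The prism chain in a warped product
-/

open SimpleGraph

namespace Pool.Agent.Lib_MP_75b583_co

/-- The multiple of `2 ^ k` nearest to `t`. -/
def pos (k t : ℕ) : ℕ := 2 ^ k * ((t + 2 ^ (k - 1)) / 2 ^ k)

lemma pos_dvd (k t : ℕ) : 2 ^ k ∣ pos k t := Dvd.intro _ rfl

lemma two_half {k : ℕ} (hk : 1 ≤ k) : 2 ^ (k - 1) + 2 ^ (k - 1) = 2 ^ k := by
  rw [← two_mul, ← pow_succ']
  congr 1; omega

lemma pos_mono (k : ℕ) {t t' : ℕ} (h : t ≤ t') : pos k t ≤ pos k t' :=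
  Nat.mul_le_mul_left _ (Nat.div_le_div_right (by omega))

lemma pos_of_dvd {k t : ℕ} (hk : 1 ≤ k) (h : 2 ^ k ∣ t) : pos k t = t := by
  obtain ⟨c, rfl⟩ := h
  unfold pos
  have h1 := two_half hk
  have h2 : 0 < 2 ^ (k - 1) := by positivity
  have : (2 ^ k * c + 2 ^ (k - 1)) / 2 ^ k = c := by
    rw [Nat.mul_add_div (by positivity), Nat.div_eq_of_lt (by omega), add_zero]
  rw [this]

lemma pos_zero {k : ℕ} (hk : 1 ≤ k) : pos k 0 = 0 := pos_of_dvd hk (dvd_zero _)

/-- The distance to the nearest multiple. -/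
lemma pos_bounds {k t : ℕ} (hk : 1 ≤ k) :
    t < pos k t + 2 ^ (k - 1) ∧ pos k t ≤ t + 2 ^ (k - 1) := by
  unfold pos
  have h1 := two_half hk
  have h2 := Nat.div_add_mod (t + 2 ^ (k - 1)) (2 ^ k)
  have h3 := Nat.mod_lt (t + 2 ^ (k - 1)) (show 2 ^ k > 0 by positivity)
  constructor <;> omega

lemma pos_step {k t : ℕ} (hk : 1 ≤ k) (h : pos k (t + 1) ≠ pos k t) :
    pos k (t + 1) = pos k t + 2 ^ k ∧ 2 ^ (k - 1) ∣ t + 1 ∧ ¬ 2 ^ k ∣ t + 1 := by
  have h1 := two_half hk
  have h2 : 0 < 2 ^ (k - 1) := by positivity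
  have h3 : 2 ^ k ∣ t + 2 ^ (k - 1) + 1 := by
    by_contra hcon
    apply h
    unfold pos
    rw [show t + 1 + 2 ^ (k - 1) = (t + 2 ^ (k - 1)) + 1 by ring, Nat.succ_div, if_neg hcon,
      add_zero]
  refine ⟨?_, ?_, ?_⟩
  · unfold pos
    rw [show t + 1 + 2 ^ (k - 1) = (t + 2 ^ (k - 1)) + 1 by ring, Nat.succ_div, if_pos h3]
    ring
  · have h4 : 2 ^ (k - 1) ∣ t + 2 ^ (k - 1) + 1 := (pow_dvd_pow 2 (Nat.sub_le _ _)).trans h3
    have h5 : t + 2 ^ (k - 1) + 1 = (t + 1) + 2 ^ (k - 1) := by ring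
    rw [h5] at h4
    exact (Nat.dvd_add_left (dvd_refl _)).1 h4
  · intro h4
    have h5 : t + 2 ^ (k - 1) + 1 = (t + 1) + 2 ^ (k - 1) := by ring
    rw [h5] at h3
    have h6 := (Nat.dvd_add_right h4).1 h3
    have := Nat.le_of_dvd h2 h6
    omega

/-- Two positions are close. -/
lemma pos_close {k k' t : ℕ} (hk : 1 ≤ k) (hkk : k < k') :
    |(pos k t : ℤ) - pos k' t| ≤ 2 ^ (k' - 1) := by
  have hk' : 1 ≤ k' := by omega
  obtain ⟨h1, h2⟩ := pos_bounds (t := t) hk'
  have hd : 2 ^ k ∣ 2 ^ (k' - 1) := pow_dvd_pow 2 (by omega)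
  have hd' : 2 ^ k ∣ pos k' t := (pow_dvd_pow 2 (by omega)).trans (pos_dvd _ _)
  have h3 : pos k t ≤ pos k' t + 2 ^ (k' - 1) := by
    have := pos_mono k (t := t) (t' := pos k' t + 2 ^ (k' - 1)) (by omega)
    rwa [pos_of_dvd hk (hd'.add hd)] at this
  have h4 : pos k' t ≤ pos k t + 2 ^ (k' - 1) := by
    rcases Nat.lt_or_ge (pos k' t) (2 ^ (k' - 1)) with h5 | h5
    · omega
    · have := pos_mono k (t := pos k' t - 2 ^ (k' - 1)) (t' := t) (by omega)
      rw [pos_of_dvd hk (Nat.dvd_sub hd' hd)] at this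
      omega
  rw [abs_le]
  have h3' : (pos k t : ℤ) ≤ pos k' t + 2 ^ (k' - 1) := by exact_mod_cast h3
  have h4' : (pos k' t : ℤ) ≤ pos k t + 2 ^ (k' - 1) := by exact_mod_cast h4
  constructor <;> linarith

variable {V : Type}

section
variable {rk e : V → ℕ} {s A L K : ℕ}

/-- The point of the fibre of `v` at time `t`. -/
def sv (h : Par rk e s A L K) (t : ℕ) (v : V) : WV e L :=
  ⟨(v, pos (e v) (min t L)), pos_dvd _ _, by
    have h1 := pos_mono (e v) (Nat.min_le_right t L)
    rwa [pos_of_dvd (h.e1 v) (h.dvdL v)] at h1⟩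

lemma sv_fst (h : Par rk e s A L K) (t : ℕ) (v : V) : (sv h t v).1.1 = v := rfl

lemma sv_snd (h : Par rk e s A L K) (t : ℕ) (v : V) :
    (sv h t v).1.2 = pos (e v) (min t L) := rfl

lemma sv_inj (h : Par rk e s A L K) {t t' : ℕ} {v w : V} (hh : sv h t v = sv h t' w) : v = w := by
  have := congrArg (fun x : WV e L => x.1.1) hh
  exact this

lemma sv_injective (h : Par rk e s A L K) (t : ℕ) : Function.Injective (sv h t) :=
  fun _ _ hh => sv_inj h hh

/-- Only one vertex of a clique moves at a time. -/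
lemma mv_unique (h : Par rk e s A L K) {t : ℕ} {u v : V} (huv : u ≠ v)
    (hv : sv h (t + 1) v ≠ sv h t v) : sv h (t + 1) u = sv h t u := by
  by_contra hu
  have htL : t < L := by
    by_contra hcon
    push Not at hcon
    apply hv
    unfold sv
    have h1 : min (t + 1) L = min t L := by omega
    simp only [h1]
  have e1 : min (t + 1) L = t + 1 := by omega
  have e2 : min t L = t := by omega
  have hv' : pos (e v) (t + 1) ≠ pos (e v) t := by
    intro hh
    apply hv
    refine Subtype.ext (Prod.ext rfl ?_)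
    rw [sv_snd, sv_snd, e1, e2, hh]
  have hu' : pos (e u) (t + 1) ≠ pos (e u) t := by
    intro hh
    apply hu
    refine Subtype.ext (Prod.ext rfl ?_)
    rw [sv_snd, sv_snd, e1, e2, hh]
  obtain ⟨-, a1, a2⟩ := pos_step (h.e1 v) hv'
  obtain ⟨-, b1, b2⟩ := pos_step (h.e1 u) hu'
  have hne : rk u ≠ rk v := fun hh => huv (h.inj hh)
  have hs := h.s1
  rcases lt_or_gt_of_ne hne with h1 | h1
  · have h2 := h.sep u v h1
    exact a2 ((pow_dvd_pow 2 (by omega)).trans b1)
  · have h2 := h.sep v u h1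
    exact b2 ((pow_dvd_pow 2 (by omega)).trans a1)

lemma sv_adj_step (h : Par rk e s A L K) (G : SimpleGraph V) {t : ℕ} {v : V}
    (hv : sv h (t + 1) v ≠ sv h t v) : (wg G e L).Adj (sv h t v) (sv h (t + 1) v) := by
  have htL : t < L := by
    by_contra hcon
    push Not at hcon
    apply hv
    unfold sv
    have h1 : min (t + 1) L = min t L := by omega
    simp only [h1]
  have e1 : min (t + 1) L = t + 1 := by omega
  have e2 : min t L = t := by omega
  have hv' : pos (e v) (t + 1) ≠ pos (e v) t := by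
    intro hh
    apply hv
    refine Subtype.ext (Prod.ext rfl ?_)
    rw [sv_snd, sv_snd, e1, e2, hh]
  obtain ⟨a0, -, -⟩ := pos_step (h.e1 v) hv'
  refine Or.inl ⟨rfl, Or.inr ?_⟩
  rw [sv_snd, sv_snd, e1, e2, sv_fst]
  exact a0

lemma sv_adj (h : Par rk e s A L K) (G : SimpleGraph V) (t : ℕ) {u v : V} (huv : G.Adj u v) :
    (wg G e L).Adj (sv h t u) (sv h t v) := by
  refine Or.inr ⟨huv, ?_⟩
  rw [sv_snd, sv_snd, sv_fst, sv_fst]
  have hne : rk u ≠ rk v := fun hh => huv.ne (h.inj hh)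
  have hs := h.s1
  rcases lt_or_gt_of_ne hne with h1 | h1
  · have h2 := h.sep u v h1
    rw [max_eq_left (by omega), abs_sub_comm]
    exact pos_close (h.e1 v) (by omega)
  · have h2 := h.sep v u h1
    rw [max_eq_right (by omega)]
    exact pos_close (h.e1 u) (by omega)

variable [DecidableEq V]

/-- The facets of the new chain. -/
def facet (m : ℕ) (F : ℕ → Set V) (e : V → ℕ) (L : ℕ) (j : ℕ) : Set (WV e L) :=
  {x | (j = m + 1 ∧ x.1.2 = 0) ∨ (j ≤ m ∧ x.1.1 ∈ F j) ∨ (j = 0 ∧ x.1.2 = L)}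

/-- The prism over a simplex, at time `t`. -/
def prism (h : Par rk e s A L K) (τ : Finset V) (t : ℕ) : Multiset (Finset (WV e L)) :=
  (τ.filter fun v => sv h (t + 1) v ≠ sv h t v).val.map
    fun v => insert (sv h (t + 1) v) (τ.image (sv h t))

/-- The prism chain. -/
def prisms (h : Par rk e s A L K) (z : Multiset (Finset V)) : Multiset (Finset (WV e L)) :=
  z.bind fun τ => (Multiset.range L).bind fun t => prism h τ t

lemma mem_prisms {h : Par rk e s A L K} {z : Multiset (Finset V)} {σ : Finset (WV e L)} :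
    σ ∈ prisms h z ↔ ∃ τ ∈ z, ∃ t < L, ∃ v ∈ τ, sv h (t + 1) v ≠ sv h t v ∧
      insert (sv h (t + 1) v) (τ.image (sv h t)) = σ := by
  unfold prisms prism
  simp only [Multiset.mem_bind, Multiset.mem_map, Multiset.mem_range, Finset.mem_val,
    Finset.mem_filter]
  constructor
  · rintro ⟨τ, hτ, t, ht, v, ⟨hv1, hv2⟩, hv3⟩
    exact ⟨τ, hτ, t, ht, v, hv1, hv2, hv3⟩
  · rintro ⟨τ, hτ, t, ht, v, hv1, hv2, hv3⟩
    exact ⟨τ, hτ, t, ht, v, ⟨hv1, hv2⟩, hv3⟩

lemma sum_prisms (h : Par rk e s A L K) (z : Multiset (Finset V))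
    (f : Finset (WV e L) → ZMod 2) :
    ((prisms h z).map f).sum = (z.map fun τ => ∑ t ∈ Finset.range L,
      ∑ v ∈ τ.filter (fun v => sv h (t + 1) v ≠ sv h t v),
        f (insert (sv h (t + 1) v) (τ.image (sv h t)))).sum := by
  unfold prisms
  rw [Multiset.map_bind, Multiset.sum_bind]
  congr 1
  refine Multiset.map_congr rfl fun τ _ => ?_
  rw [Multiset.map_bind, Multiset.sum_bind]
  show _ = (Multiset.map _ (Multiset.range L)).sum
  congr 1
  refine Multiset.map_congr rfl fun t _ => ?_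
  unfold prism
  rw [Multiset.map_map]
  rfl

lemma notMem_image_sv (h : Par rk e s A L K) {τ : Finset V} {t : ℕ} {v : V}
    (hv : sv h (t + 1) v ≠ sv h t v) : sv h (t + 1) v ∉ τ.image (sv h t) := by
  intro hh
  obtain ⟨w, -, hw⟩ := Finset.mem_image.1 hh
  have := sv_inj h hw
  subst this
  exact hv hw.symm

/-- The image of a simplex at time `t + 1`. -/
lemma image_succ_eq (h : Par rk e s A L K) {τ : Finset V} {t : ℕ} {v : V} (hvτ : v ∈ τ)
    (hv : sv h (t + 1) v ≠ sv h t v) :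
    τ.image (sv h (t + 1)) = insert (sv h (t + 1) v) ((τ.erase v).image (sv h t)) := by
  ext x
  simp only [Finset.mem_image, Finset.mem_insert, Finset.mem_erase]
  constructor
  · rintro ⟨w, hw, rfl⟩
    by_cases hwv : w = v
    · left; rw [hwv]
    · right; exact ⟨w, ⟨hwv, hw⟩, (mv_unique h hwv hv).symm⟩
  · rintro (rfl | ⟨w, ⟨hwv, hw⟩, rfl⟩)
    · exact ⟨v, hvτ, rfl⟩
    · exact ⟨w, hw, mv_unique h hwv hv⟩

/-- The auxiliary cochain. -/
def psi (h : Par rk e s A L K) (φ : Finset (WV e L) → ZMod 2) (t : ℕ) (ρ : Finset V) : ZMod 2 :=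
  ∑ v ∈ ρ.filter (fun v => sv h (t + 1) v ≠ sv h t v),
    φ (insert (sv h (t + 1) v) (ρ.image (sv h t)))

/-- The boundary of one prism. -/
lemma bd_one (h : Par rk e s A L K) (φ : Finset (WV e L) → ZMod 2) {τ : Finset V} {t : ℕ} {v : V}
    (hvτ : v ∈ τ) (hv : sv h (t + 1) v ≠ sv h t v) :
    ∑ a ∈ insert (sv h (t + 1) v) (τ.image (sv h t)),
      φ ((insert (sv h (t + 1) v) (τ.image (sv h t))).erase a) =
    φ (τ.image (sv h t)) + φ (τ.image (sv h (t + 1))) +
      ∑ u ∈ τ.erase v, φ (insert (sv h (t + 1) v) ((τ.erase u).image (sv h t))) := by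
  have hnm := notMem_image_sv h (τ := τ) hv
  rw [Finset.sum_insert hnm, Finset.erase_insert hnm,
    Finset.sum_image (fun x _ y _ hxy => sv_injective h t hxy), ← Finset.add_sum_erase _ _ hvτ,
    ← add_assoc]
  have h1 : ∀ u, (insert (sv h (t + 1) v) (τ.image (sv h t))).erase (sv h t u) =
      insert (sv h (t + 1) v) ((τ.erase u).image (sv h t)) := by
    intro u
    have hne : sv h (t + 1) v ≠ sv h t u := by
      intro hh
      have := sv_inj h hh
      subst this
      exact hv hh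
    rw [Finset.erase_insert_of_ne hne]
    congr 1
    ext x
    simp only [Finset.mem_erase, Finset.mem_image]
    constructor
    · rintro ⟨hx, w, hw, rfl⟩
      exact ⟨w, ⟨fun hh => hx (by rw [hh]), hw⟩, rfl⟩
    · rintro ⟨w, ⟨hwu, hw⟩, rfl⟩
      exact ⟨fun hh => hwu (sv_injective h t hh), w, hw, rfl⟩
  rw [h1 v, ← image_succ_eq h hvτ hv]
  congr 1
  exact Finset.sum_congr rfl fun u _ => by rw [h1 u]

lemma zmod_add_self (x : ZMod 2) : x + x = 0 := by
  revert x; decide

/-- The boundary of all prisms of a simplex at a given time. -/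
lemma bd_time (h : Par rk e s A L K) (φ : Finset (WV e L) → ZMod 2) (τ : Finset V) (t : ℕ) :
    ∑ v ∈ τ.filter (fun v => sv h (t + 1) v ≠ sv h t v),
      ∑ a ∈ insert (sv h (t + 1) v) (τ.image (sv h t)),
        φ ((insert (sv h (t + 1) v) (τ.image (sv h t))).erase a) =
    (φ (τ.image (sv h t)) + φ (τ.image (sv h (t + 1)))) + ∑ u ∈ τ, psi h φ t (τ.erase u) := by
  by_cases hex : ∃ v ∈ τ, sv h (t + 1) v ≠ sv h t v
  · obtain ⟨v, hvτ, hv⟩ := hex
    have hfil : τ.filter (fun v => sv h (t + 1) v ≠ sv h t v) = {v} := by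
      ext w
      simp only [Finset.mem_filter, Finset.mem_singleton]
      constructor
      · rintro ⟨-, hw⟩
        by_contra hwv
        exact hw (mv_unique h hwv hv)
      · rintro rfl
        exact ⟨hvτ, hv⟩
    rw [hfil, Finset.sum_singleton, bd_one h φ hvτ hv]
    congr 1
    rw [← Finset.add_sum_erase _ _ hvτ]
    have h0 : psi h φ t (τ.erase v) = 0 := by
      unfold psi
      rw [Finset.filter_erase, hfil, Finset.erase_singleton, Finset.sum_empty]
    rw [h0, zero_add]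
    refine Finset.sum_congr rfl fun u hu => ?_
    rw [Finset.mem_erase] at hu
    unfold psi
    have hev : ({v} : Finset V).erase u = {v} :=
      Finset.erase_eq_of_notMem (by rw [Finset.mem_singleton]; exact hu.1)
    rw [Finset.filter_erase, hfil, hev, Finset.sum_singleton]
  · push Not at hex
    have hfil : ∀ ρ ⊆ τ, ρ.filter (fun v => sv h (t + 1) v ≠ sv h t v) = ∅ := by
      intro ρ hρ
      rw [Finset.filter_eq_empty_iff]
      intro v hv hh
      exact hh (hex v (hρ hv))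
    rw [hfil τ (Finset.Subset.refl _), Finset.sum_empty]
    have h1 : τ.image (sv h (t + 1)) = τ.image (sv h t) :=
      Finset.image_congr fun v hv => hex v hv
    rw [h1, zmod_add_self, zero_add]
    symm
    apply Finset.sum_eq_zero
    intro u _
    unfold psi
    rw [hfil _ (Finset.erase_subset _ _), Finset.sum_empty]

lemma telescope (g : ℕ → ZMod 2) (n : ℕ) :
    ∑ t ∈ Finset.range n, (g t + g (t + 1)) = g 0 + g n := by
  induction n with
  | zero => rw [Finset.sum_range_zero, zmod_add_self]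
  | succ n ih =>
    rw [Finset.sum_range_succ, ih]
    have := zmod_add_self (g n)
    linear_combination this

/-- The boundary formula for the prism chain. -/
lemma bd_prisms (h : Par rk e s A L K) {G : SimpleGraph V} {m : ℕ} {z : Multiset (Finset V)}
    {F : ℕ → Set V} (hz : SpChain G m z F) (φ : Finset (WV e L) → ZMod 2)
    (hφ : ∀ ρ : Finset (WV e L), (∃ j ≤ m, ∀ x ∈ ρ, x.1.1 ∈ F j) → φ ρ = 0) :
    ((prisms h z).map fun σ => ∑ a ∈ σ, φ (σ.erase a)).sum =
      (z.map fun τ => φ (τ.image (sv h 0))).sum + (z.map fun τ => φ (τ.image (sv h L))).sum := by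
  rw [sum_prisms]
  have h1 : (z.map fun τ => ∑ t ∈ Finset.range L,
      ∑ v ∈ τ.filter (fun v => sv h (t + 1) v ≠ sv h t v),
        ∑ a ∈ insert (sv h (t + 1) v) (τ.image (sv h t)),
          φ ((insert (sv h (t + 1) v) (τ.image (sv h t))).erase a)) =
      z.map fun τ => (φ (τ.image (sv h 0)) + φ (τ.image (sv h L))) +
        ∑ u ∈ τ, (fun ρ => ∑ t ∈ Finset.range L, psi h φ t ρ) (τ.erase u) := by
    refine Multiset.map_congr rfl fun τ _ => ?_
    rw [Finset.sum_congr rfl fun t _ => bd_time h φ τ t, Finset.sum_add_distrib,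
      telescope (fun t => φ (τ.image (sv h t))), Finset.sum_comm]
  have h2 : (z.map fun τ => ∑ u ∈ τ,
      (fun ρ => ∑ t ∈ Finset.range L, psi h φ t ρ) (τ.erase u)).sum = 0 := by
    refine hz.bd (fun ρ => ∑ t ∈ Finset.range L, psi h φ t ρ) ?_
    rintro ρ ⟨j, hj, hρ⟩
    apply Finset.sum_eq_zero
    intro t _
    unfold psi
    apply Finset.sum_eq_zero
    intro v hv
    apply hφ
    refine ⟨j, hj, ?_⟩
    intro x hx
    rw [Finset.mem_insert] at hx
    rcases hx with rfl | hx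
    · exact hρ v (Finset.mem_filter.1 hv).1
    · obtain ⟨w, hw, rfl⟩ := Finset.mem_image.1 hx
      exact hρ w hw
  rw [h1, Multiset.sum_map_add, Multiset.sum_map_add, h2, add_zero]

/-- The prism chain is a Sperner chain. -/
theorem prisms_spChain (h : Par rk e s A L K) {G : SimpleGraph V} {m : ℕ}
    {z : Multiset (Finset V)} {F : ℕ → Set V} (hz : SpChain G m z F) :
    SpChain (wg G e L) (m + 1) (prisms h z) (facet m F e L) where
  card := by
    intro σ hσ
    obtain ⟨τ, hτ, t, ht, v, hvτ, hv, rfl⟩ := mem_prisms.1 hσ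
    rw [Finset.card_insert_of_notMem (notMem_image_sv h hv),
      Finset.card_image_of_injective _ (sv_injective h t), hz.card τ hτ]
  clq := by
    intro σ hσ
    obtain ⟨τ, hτ, t, ht, v, hvτ, hv, rfl⟩ := mem_prisms.1 hσ
    have key : ∀ w ∈ τ, (wg G e L).Adj (sv h t w) (sv h (t + 1) v) := by
      intro w hw
      by_cases hwv : w = v
      · subst hwv
        exact sv_adj_step h G hv
      · rw [← mv_unique h hwv hv]
        exact sv_adj h G (t + 1) (hz.clq τ hτ w hw v hvτ hwv)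
    intro x hx y hy hxy
    rw [Finset.mem_insert] at hx hy
    rcases hx with rfl | hx
    · rcases hy with rfl | hy
      · exact absurd rfl hxy
      · obtain ⟨w, hw, rfl⟩ := Finset.mem_image.1 hy
        exact (key w hw).symm
    · obtain ⟨u, hu, rfl⟩ := Finset.mem_image.1 hx
      rcases hy with rfl | hy
      · exact key u hu
      · obtain ⟨w, hw, rfl⟩ := Finset.mem_image.1 hy
        exact sv_adj h G t (hz.clq τ hτ u hu w hw fun hh => hxy (by rw [hh]))
  bd := by
    intro φ hφ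
    rw [bd_prisms h hz φ]
    · have h1 : (z.map fun τ => φ (τ.image (sv h 0))).sum = 0 := by
        apply Multiset.sum_eq_zero
        intro x hx
        obtain ⟨τ, hτ, rfl⟩ := Multiset.mem_map.1 hx
        apply hφ
        refine ⟨m + 1, le_rfl, ?_⟩
        intro y hy
        obtain ⟨w, hw, rfl⟩ := Finset.mem_image.1 hy
        refine Or.inl ⟨rfl, ?_⟩
        rw [sv_snd, Nat.zero_min, pos_zero (h.e1 w)]
      have h2 : (z.map fun τ => φ (τ.image (sv h L))).sum = 0 := by
        apply Multiset.sum_eq_zero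
        intro x hx
        obtain ⟨τ, hτ, rfl⟩ := Multiset.mem_map.1 hx
        apply hφ
        refine ⟨0, by omega, ?_⟩
        intro y hy
        obtain ⟨w, hw, rfl⟩ := Finset.mem_image.1 hy
        refine Or.inr (Or.inr ⟨rfl, ?_⟩)
        rw [sv_snd, min_self, pos_of_dvd (h.e1 w) (h.dvdL w)]
      rw [h1, h2, add_zero]
    · rintro ρ ⟨j, hj, hρ⟩
      exact hφ ρ ⟨j, by omega, fun x hx => Or.inr (Or.inl ⟨hj, hρ x hx⟩)⟩
  odd := by
    intro ℓ hℓ hℓF
    have hcard : ∀ σ ∈ prisms h z, σ.card = m + 2 := by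
      intro σ hσ
      obtain ⟨τ, hτ, t, ht, v, hvτ, hv, rfl⟩ := mem_prisms.1 hσ
      rw [Finset.card_insert_of_notMem (notMem_image_sv h hv),
        Finset.card_image_of_injective _ (sv_injective h t), hz.card τ hτ]
    have h1 : (prisms h z).map (rb (m + 1) ℓ) =
        (prisms h z).map fun σ => ∑ a ∈ σ, rb m ℓ (σ.erase a) :=
      Multiset.map_congr rfl fun σ hσ => (sum_rb_erase (hcard σ hσ) fun x _ => hℓ x).symm
    rw [h1, bd_prisms h hz]
    · have h2 : (z.map fun τ => rb m ℓ (τ.image (sv h L))).sum = 0 := by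
        apply Multiset.sum_eq_zero
        intro x hx
        obtain ⟨τ, hτ, rfl⟩ := Multiset.mem_map.1 hx
        unfold rb
        rw [if_neg]
        intro hh
        have h0 : 0 ∈ (τ.image (sv h L)).image ℓ := by rw [hh]; simp
        obtain ⟨y, hy, hy0⟩ := Finset.mem_image.1 h0
        obtain ⟨w, hw, rfl⟩ := Finset.mem_image.1 hy
        refine hℓF (sv h L w) 0 (by omega) (Or.inr (Or.inr ⟨rfl, ?_⟩)) hy0
        rw [sv_snd, min_self, pos_of_dvd (h.e1 w) (h.dvdL w)]
      have h3 : (z.map fun τ => rb m ℓ (τ.image (sv h 0))) =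
          z.map (rb m fun v => ℓ (sv h 0 v)) := by
        refine Multiset.map_congr rfl fun τ _ => ?_
        unfold rb
        rw [Finset.image_image]
        rfl
      rw [h2, h3, add_zero]
      apply hz.odd
      · intro v
        have h4 := hℓ (sv h 0 v)
        have h5 : ℓ (sv h 0 v) ≠ m + 1 := by
          refine hℓF (sv h 0 v) (m + 1) le_rfl (Or.inl ⟨rfl, ?_⟩)
          rw [sv_snd, Nat.zero_min, pos_zero (h.e1 v)]
        omega
      · intro v j hj hvj
        exact hℓF (sv h 0 v) j (by omega) (Or.inr (Or.inl ⟨hj, hvj⟩))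
    · rintro ρ ⟨j, hj, hρ⟩
      unfold rb
      rw [if_neg]
      intro hh
      have h0 : j ∈ ρ.image ℓ := by rw [hh, Finset.mem_range]; omega
      obtain ⟨y, hy, hyj⟩ := Finset.mem_image.1 h0
      exact hℓF y j (by omega) (Or.inr (Or.inl ⟨hj, hρ y hy⟩)) hyj

end

end Pool.Agent.Lib_MP_75b583_co
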