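import Pool.Agent.Lib_MP_75b583_co.Defs

/-!
# Warped products of a graph with a path
-/

open SimpleGraph

namespace Pool.Agent.Lib_MP_75b583_co

/-- The modified 2-adic valuation: the value at `0` is `A`. -/
def nu (A p : ℕ) : ℕ := if p = 0 then A else padicValNat 2 p

lemma dvd_of_le_nu {A j p : ℕ} (h : j ≤ nu A p) : 2 ^ j ∣ p := by
  unfold nu at h
  split_ifs at h with hp
  · rw [hp]; exact dvd_zero _
  · exact (padicValNat_dvd_iff_le hp).2 h

lemma le_nu_of_dvd {A j p : ℕ} (hj : j ≤ A) (h : 2 ^ j ∣ p) : j ≤ nu A p := by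
  unfold nu
  split_ifs with hp
  · exact hj
  · exact (padicValNat_dvd_iff_le hp).1 h

lemma nu_lt {A p L : ℕ} (hp : p ≤ L) (hL : L < 2 ^ A) (h0 : p ≠ 0) : nu A p < A := by
  have h1 : 2 ^ nu A p ∣ p := dvd_of_le_nu le_rfl
  have h2 := Nat.le_of_dvd (Nat.pos_of_ne_zero h0) h1
  exact (Nat.pow_lt_pow_iff_right (by norm_num)).1 ((h2.trans hp).trans_lt hL)

lemma nu_le {A p L : ℕ} (hp : p ≤ L) (hL : L < 2 ^ A) : nu A p ≤ A := by
  by_cases h0 : p = 0
  · simp [nu, h0]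
  · exact (nu_lt hp hL h0).le

lemma digits_eq {a a' k r r' : ℕ} (h : a * k + r = a' * k + r') (hr : r < k) (hr' : r' < k) :
    a = a' ∧ r = r' := by
  have key : a = a' := by
    rcases lt_trichotomy a a' with h1 | h1 | h1
    · exfalso
      have : (a + 1) * k ≤ a' * k := Nat.mul_le_mul_right k h1
      rw [add_mul, one_mul] at this
      omega
    · exact h1
    · exfalso
      have : (a' + 1) * k ≤ a * k := Nat.mul_le_mul_right k h1
      rw [add_mul, one_mul] at this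
      omega
  subst key
  exact ⟨rfl, by omega⟩

variable {V : Type}

/-- The vertices of the warped product: pairs (vertex, position). -/
abbrev WV (e : V → ℕ) (L : ℕ) : Type := {x : V × ℕ // 2 ^ e x.1 ∣ x.2 ∧ x.2 ≤ L}

/-- The warped product. -/
def wg (G : SimpleGraph V) (e : V → ℕ) (L : ℕ) : SimpleGraph (WV e L) where
  Adj x y := (x.1.1 = y.1.1 ∧ (x.1.2 = y.1.2 + 2 ^ e y.1.1 ∨ y.1.2 = x.1.2 + 2 ^ e x.1.1)) ∨
    (G.Adj x.1.1 y.1.1 ∧ |(x.1.2 : ℤ) - y.1.2| ≤ 2 ^ (max (e x.1.1) (e y.1.1) - 1))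
  symm := ⟨by
    rintro x y (⟨h1, h2⟩ | ⟨h1, h2⟩)
    · exact Or.inl ⟨h1.symm, h2.symm⟩
    · refine Or.inr ⟨h1.symm, ?_⟩
      rw [abs_sub_comm, max_comm]
      exact h2⟩
  loopless := ⟨by
    rintro x (⟨h1, h2⟩ | ⟨h1, h2⟩)
    · have := Nat.pos_of_ne_zero (pow_ne_zero (e x.1.1) (two_ne_zero (α := ℕ)))
      omega
    · exact G.loopless.irrefl _ h1⟩

/-- The assumptions on the parameters. -/
structure Par (rk e : V → ℕ) (s A L K : ℕ) : Prop where
  s1 : 1 ≤ s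
  rkK : ∀ v, rk v ≤ K
  inj : Function.Injective rk
  e1 : ∀ v, 1 ≤ e v
  eA : ∀ v, e v ≤ A
  sep : ∀ u v, rk u < rk v → e v + s ≤ e u
  LA : L < 2 ^ A
  dvdL : ∀ v, 2 ^ e v ∣ L

/-- The rank on the warped product. -/
def rk' (rk : V → ℕ) (e : V → ℕ) (A L K : ℕ) (x : WV e L) : ℕ :=
  ((A - nu A x.1.2) * (L + 1) + x.1.2) * (K + 1) + rk x.1.1

namespace Par

variable {rk e : V → ℕ} {s A L K : ℕ}

lemma rk'_le (h : Par rk e s A L K) {x y : WV e L} (hxy : rk' rk e A L K y ≤ rk' rk e A L K x) :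
    nu A x.1.2 ≤ nu A y.1.2 ∧ (x.1.2 = y.1.2 → rk y.1.1 ≤ rk x.1.1) := by
  have hx := x.2.2
  have hy := y.2.2
  have hrx := h.rkK x.1.1
  constructor
  · by_contra hlt
    push Not at hlt
    have hA := nu_le hx h.LA
    have h1 : A - nu A x.1.2 + 1 ≤ A - nu A y.1.2 := by omega
    have h2 : (A - nu A x.1.2 + 1) * (L + 1) ≤ (A - nu A y.1.2) * (L + 1) :=
      Nat.mul_le_mul_right _ h1
    rw [add_mul, one_mul] at h2
    have h3 : (A - nu A x.1.2) * (L + 1) + x.1.2 + 1 ≤ (A - nu A y.1.2) * (L + 1) + y.1.2 := by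
      omega
    have h4 := Nat.mul_le_mul_right (K + 1) h3
    rw [add_mul, one_mul] at h4
    unfold rk' at hxy
    omega
  · intro hp
    unfold rk' at hxy
    rw [hp] at hxy
    omega

lemma rk'_inj (h : Par rk e s A L K) : Function.Injective (rk' rk e A L K) := by
  intro x y hxy
  unfold rk' at hxy
  obtain ⟨h1, h2⟩ := digits_eq hxy (Nat.lt_succ_of_le (h.rkK _)) (Nat.lt_succ_of_le (h.rkK _))
  obtain ⟨-, h3⟩ := digits_eq h1 (Nat.lt_succ_of_le x.2.2) (Nat.lt_succ_of_le y.2.2)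
  exact Subtype.ext (Prod.ext (h.inj h2) h3)

lemma e_mono (h : Par rk e s A L K) {u v : V} (huv : rk u ≤ rk v) : e v ≤ e u := by
  rcases huv.eq_or_lt with h1 | h1
  · rw [h.inj h1]
  · have := h.sep u v h1
    omega

/-- Positions stay close to a very divisible one. -/
lemma stepA (h : Par rk e s A L K) {G : SimpleGraph V} {a b : WV e L} {q : ℕ} (hq : q ≤ L)
    (hab : (wg G e L).Adj a b) (ha : nu A a.1.2 ≤ nu A q) (hb : nu A b.1.2 ≤ nu A q)
    (hd : |(a.1.2 : ℤ) - q| < 2 ^ nu A q) : |(b.1.2 : ℤ) - q| < 2 ^ nu A q := by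
  obtain ⟨m, hm, hdvd, hdist⟩ : ∃ m, m ≤ nu A q ∧ (2 ^ m ∣ a.1.2 ∨ 2 ^ m ∣ b.1.2) ∧
      |(b.1.2 : ℤ) - a.1.2| ≤ 2 ^ m := by
    rcases hab with ⟨h1, h2⟩ | ⟨h1, h2⟩
    · refine ⟨e a.1.1, ?_, Or.inl a.2.1, ?_⟩
      · exact (le_nu_of_dvd (h.eA _) a.2.1).trans ha
      · rcases h2 with h2 | h2
        · rw [← h1] at h2
          rw [h2]; push_cast
          rw [show (b.1.2 : ℤ) - (b.1.2 + 2 ^ e a.1.1) = -(2 ^ e a.1.1) by ring, abs_neg,
            abs_of_pos (by positivity)]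
        · rw [h2]; push_cast
          rw [show (a.1.2 : ℤ) + 2 ^ e a.1.1 - a.1.2 = 2 ^ e a.1.1 by ring,
            abs_of_pos (by positivity)]
    · rw [abs_sub_comm] at h2
      have hle : |(b.1.2 : ℤ) - a.1.2| ≤ 2 ^ max (e a.1.1) (e b.1.1) :=
        h2.trans (pow_le_pow_right₀ (by norm_num) (Nat.sub_le _ _))
      rcases le_total (e a.1.1) (e b.1.1) with h3 | h3
      · rw [max_eq_right h3] at hle
        exact ⟨e b.1.1, (le_nu_of_dvd (h.eA _) b.2.1).trans hb, Or.inr b.2.1, hle⟩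
      · rw [max_eq_left h3] at hle
        exact ⟨e a.1.1, (le_nu_of_dvd (h.eA _) a.2.1).trans ha, Or.inl a.2.1, hle⟩
  set H := nu A q with hH
  have hqd : (2 : ℤ) ^ H ∣ q := by
    have : 2 ^ H ∣ q := dvd_of_le_nu le_rfl
    exact_mod_cast this
  have hmH : (2 : ℤ) ^ m ∣ 2 ^ H := pow_dvd_pow 2 hm
  have hbq : ∀ x : ℤ, (x = q + 2 ^ H ∨ x = q - 2 ^ H) → (b.1.2 : ℤ) ≠ x := by
    intro x hx hbx
    by_cases hq0 : q = 0
    · have hHA : H = A := by rw [hH, hq0]; simp [nu]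
      have hbL : (b.1.2 : ℤ) ≤ L := by exact_mod_cast b.2.2
      have hLA : (L : ℤ) < 2 ^ A := by exact_mod_cast h.LA
      have hb0 : (0 : ℤ) ≤ b.1.2 := Int.natCast_nonneg _
      rw [hHA, hq0] at hx
      have h2A : (0 : ℤ) < 2 ^ A := by positivity
      push_cast at hx
      rcases hx with hx | hx <;> linarith
    · have hHA : H < A := nu_lt hq h.LA hq0
      have hnd : ¬ (2 : ℤ) ^ (H + 1) ∣ q := by
        intro hdv
        have : 2 ^ (H + 1) ∣ q := by exact_mod_cast hdv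
        have := le_nu_of_dvd (A := A) (by omega) this
        omega
      have hdv : (2 : ℤ) ^ (H + 1) ∣ b.1.2 := by
        obtain ⟨c, hc⟩ := hqd
        have hodd : Odd c := by
          rw [← Int.not_even_iff_odd]
          rintro ⟨c', hc'⟩
          exact hnd ⟨c', by rw [hc, hc', pow_succ]; ring⟩
        obtain ⟨c', hc'⟩ := hodd
        rw [hbx]
        rcases hx with hx | hx
        · exact ⟨c' + 1, by rw [hx, hc, hc', pow_succ]; ring⟩
        · exact ⟨c', by rw [hx, hc, hc', pow_succ]; ring⟩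
      have hdv' : 2 ^ (H + 1) ∣ b.1.2 := by exact_mod_cast hdv
      have := le_nu_of_dvd (A := A) (by omega) hdv'
      omega
  have hdvd' : (2 : ℤ) ^ m ∣ a.1.2 ∨ (2 : ℤ) ^ m ∣ b.1.2 := by
    rcases hdvd with h1 | h1
    · left; exact_mod_cast h1
    · right; exact_mod_cast h1
  rw [abs_lt] at hd ⊢
  rw [abs_le] at hdist
  have h2m : (0 : ℤ) < 2 ^ m := by positivity
  constructor
  · by_contra hcon
    push Not at hcon
    have hxd : (2 : ℤ) ^ m ∣ q - 2 ^ H := (hmH.trans hqd).sub hmH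
    rcases hdvd' with h1 | h1
    · have h3 := Int.le_of_dvd (by linarith) (h1.sub hxd)
      exact hbq _ (Or.inr rfl) (by linarith)
    · have h3 : (q : ℤ) - 2 ^ H - b.1.2 = 0 := by
        refine Int.eq_zero_of_abs_lt_dvd (hxd.sub h1) ?_
        rw [abs_lt]; constructor <;> linarith
      exact hbq _ (Or.inr rfl) (by linarith)
  · by_contra hcon
    push Not at hcon
    have hxd : (2 : ℤ) ^ m ∣ q + 2 ^ H := (hmH.trans hqd).add hmH
    rcases hdvd' with h1 | h1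
    · have h3 := Int.le_of_dvd (by linarith) (hxd.sub h1)
      exact hbq _ (Or.inl rfl) (by linarith)
    · have h3 : (b.1.2 : ℤ) - (q + 2 ^ H) = 0 := by
        refine Int.eq_zero_of_abs_lt_dvd (h1.sub hxd) ?_
        rw [abs_lt]; constructor <;> linarith
      exact hbq _ (Or.inl rfl) (by linarith)

lemma walkA (h : Par rk e s A L K) {G : SimpleGraph V} {q : ℕ} (hq : q ≤ L) {a b : WV e L}
    (p : (wg G e L).Walk a b) (hp : ∀ x ∈ p.support, nu A x.1.2 ≤ nu A q)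
    (hd : |(a.1.2 : ℤ) - q| < 2 ^ nu A q) : |(b.1.2 : ℤ) - q| < 2 ^ nu A q := by
  induction p with
  | nil => exact hd
  | cons hadj p ih =>
    simp only [Walk.support_cons, List.mem_cons, forall_eq_or_imp] at hp
    exact ih hp.2 (h.stepA hq hadj hp.1 (hp.2 _ p.start_mem_support) hd)

/-- The invariant for short walks. -/
def Inv (G : SimpleGraph V) (rk e : V → ℕ) {L : ℕ} (t : WV e L) (i : ℕ) (a : WV e L) : Prop :=
  rk t.1.1 ≤ rk a.1.1 ∧ |(a.1.2 : ℤ) - t.1.2| ≤ i * 2 ^ e t.1.1 ∧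
    ∃ p : G.Walk t.1.1 a.1.1, p.length ≤ i ∧ ∀ x ∈ p.support, rk t.1.1 ≤ rk x

lemma stepB (h : Par rk e s A L K) {G : SimpleGraph V} {t a b : WV e L} {i : ℕ}
    (hab : (wg G e L).Adj a b) (hi : i < 2 ^ (s - 1)) (hb : rk' rk e A L K t ≤ rk' rk e A L K b)
    (hinv : Inv G rk e t i a) : Inv G rk e t (i + 1) b := by
  obtain ⟨h1, h2, p, hp1, hp2⟩ := hinv
  rcases hab with ⟨h3, h4⟩ | ⟨h3, h4⟩
  · have hea : e a.1.1 ≤ e t.1.1 := h.e_mono h1
    have hle : (2 : ℤ) ^ e a.1.1 ≤ 2 ^ e t.1.1 := pow_le_pow_right₀ (by norm_num) hea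
    have hd : |(b.1.2 : ℤ) - a.1.2| ≤ 2 ^ e a.1.1 := by
      rcases h4 with h4 | h4
      · rw [← h3] at h4
        rw [h4]; push_cast
        rw [show (b.1.2 : ℤ) - (b.1.2 + 2 ^ e a.1.1) = -(2 ^ e a.1.1) by ring, abs_neg,
          abs_of_pos (by positivity)]
      · rw [h4]; push_cast
        rw [show (a.1.2 : ℤ) + 2 ^ e a.1.1 - a.1.2 = 2 ^ e a.1.1 by ring,
          abs_of_pos (by positivity)]
    refine ⟨h3 ▸ h1, ?_, p.copy rfl h3, by simpa using hp1.trans (Nat.le_succ i), ?_⟩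
    · rw [abs_le] at h2 hd ⊢
      push_cast
      constructor <;> nlinarith
    · simpa using hp2
  · have hr : rk t.1.1 ≤ rk b.1.1 := by
      by_contra hcon
      push Not at hcon
      have hsep := h.sep _ _ hcon
      have hea : e a.1.1 ≤ e t.1.1 := h.e_mono h1
      have hmax : max (e a.1.1) (e b.1.1) = e b.1.1 := max_eq_right (by omega)
      rw [hmax, abs_sub_comm] at h4
      have hib : (i : ℤ) * 2 ^ e t.1.1 < 2 ^ (e b.1.1 - 1) := by
        have e1 : (i : ℤ) < 2 ^ (s - 1) := by exact_mod_cast hi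
        have e2 : (2 : ℤ) ^ (s - 1) * 2 ^ e t.1.1 ≤ 2 ^ (e b.1.1 - 1) := by
          rw [← pow_add]
          have := h.s1
          exact pow_le_pow_right₀ (by norm_num) (by omega)
        have e3 : (0 : ℤ) < 2 ^ e t.1.1 := by positivity
        nlinarith
      have hsum : (2 : ℤ) ^ (e b.1.1 - 1) + 2 ^ (e b.1.1 - 1) = 2 ^ e b.1.1 := by
        have := h.e1 b.1.1
        rw [← two_mul, ← pow_succ']
        congr 1; omega
      obtain ⟨hn1, hn2⟩ := h.rk'_le hb
      have hdb : (2 : ℤ) ^ e b.1.1 ∣ b.1.2 := by exact_mod_cast b.2.1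
      have hdt : (2 : ℤ) ^ e b.1.1 ∣ t.1.2 := by
        have : 2 ^ e b.1.1 ∣ t.1.2 :=
          dvd_of_le_nu (A := A) ((le_nu_of_dvd (h.eA _) b.2.1).trans hn1)
        exact_mod_cast this
      have heq : (b.1.2 : ℤ) - t.1.2 = 0 := by
        refine Int.eq_zero_of_abs_lt_dvd (hdb.sub hdt) ?_
        rw [abs_le] at h2 h4
        rw [abs_lt]
        constructor <;> linarith
      have hpos : b.1.2 = t.1.2 := by
        have : (b.1.2 : ℤ) = t.1.2 := by linarith
        exact_mod_cast this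
      exact absurd (hn2 hpos) (not_le.2 hcon)
    have hea : e a.1.1 ≤ e t.1.1 := h.e_mono h1
    have heb : e b.1.1 ≤ e t.1.1 := h.e_mono hr
    have hle : (2 : ℤ) ^ (max (e a.1.1) (e b.1.1) - 1) ≤ 2 ^ e t.1.1 :=
      pow_le_pow_right₀ (by norm_num) (by omega)
    refine ⟨hr, ?_, p.concat h3, ?_, ?_⟩
    · rw [abs_le] at h2 h4 ⊢
      push_cast
      constructor <;> nlinarith
    · rw [Walk.length_concat]; omega
    · intro x hx
      rw [Walk.support_concat, List.mem_append, List.mem_singleton] at hx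
      rcases hx with hx | hx
      · exact hp2 x hx
      · rw [hx]; exact hr

lemma walkB (h : Par rk e s A L K) {G : SimpleGraph V} {t a b : WV e L}
    (p : (wg G e L).Walk a b) : ∀ (i : ℕ), i + p.length ≤ 2 ^ (s - 1) →
    (∀ x ∈ p.support, rk' rk e A L K t ≤ rk' rk e A L K x) → Inv G rk e t i a →
    Inv G rk e t (i + p.length) b := by
  induction p with
  | nil => intro i _ _ h; simpa using h
  | cons hadj p ih =>
    intro i hi hp hinv
    simp only [Walk.support_cons, List.mem_cons, forall_eq_or_imp, Walk.length_cons] at hp hi ⊢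
    have h1 := h.stepB hadj (by omega) (hp.2 _ p.start_mem_support) hinv
    have h2 := ih (i + 1) (by omega) hp.2 h1
    rwa [show i + (p.length + 1) = i + 1 + p.length by omega]

lemma WR_far (h : Par rk e s A L K) {G : SimpleGraph V} {d : ℕ} {x t : WV e L}
    (hx : WR (wg G e L) (rk' rk e A L K) d x t) :
    |(x.1.2 : ℤ) - t.1.2| < 2 ^ nu A t.1.2 := by
  obtain ⟨p, -, hp⟩ := hx
  refine h.walkA t.2.2 p (fun y hy => (h.rk'_le (hp y hy)).1) ?_
  rw [sub_self, abs_zero]; positivity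

lemma WR_near (h : Par rk e s A L K) {G : SimpleGraph V} {d : ℕ} (hd : d ≤ 2 ^ (s - 1))
    {x t : WV e L} (hx : WR (wg G e L) (rk' rk e A L K) d x t) :
    WR G rk d x.1.1 t.1.1 ∧ |(x.1.2 : ℤ) - t.1.2| ≤ d * 2 ^ e t.1.1 := by
  obtain ⟨p, hpl, hp⟩ := hx
  have h0 : Inv G rk e t 0 t := ⟨le_rfl, by simp, Walk.nil, le_rfl, by simp⟩
  obtain ⟨h1, h2, w, hw1, hw2⟩ := h.walkB p 0 (by omega) hp h0
  rw [zero_add] at h2 hw1
  refine ⟨⟨w, hw1.trans hpl, hw2⟩, h2.trans ?_⟩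
  have : (p.length : ℤ) ≤ d := by exact_mod_cast hpl
  have h3 : (0 : ℤ) < 2 ^ e t.1.1 := by positivity
  nlinarith

end Par

end Pool.Agent.Lib_MP_75b583_co
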